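import Pool.Agent.LibTR29.T8
import Pool.Agent.LibBR70.PX8

/-! The trace formula with `N` terms: definitions. -/

open MeasureTheory Set Filter Topology
open scoped ContDiff

namespace BE73

open BGS BR

/-- Smooth amplitudes on the half line, with bounds of the derivatives up to order `n`. -/
structure Sm (n : ℕ) (b : ℝ → ℂ) (ρ S : ℝ) : Prop where
  smooth : ContDiff ℝ ∞ b
  supp : ∀ t, ρ < t → b t = 0
  bound : ∀ k ≤ n, ∀ t, 0 ≤ t → ‖iteratedDeriv k b t‖ ≤ S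

/-- The amplitudes of `BR.Amp` with bounds of the derivatives up to order `n`. -/
structure AmpN (n : ℕ) (a : ℝ → ℂ) (ρ M : ℝ) : Prop where
  amp : Amp a ρ M
  bound : ∀ k ≤ n, ∀ t, ‖iteratedDeriv k a t‖ ≤ M

/-- Exponential growth with the exponent `C`, stable under `k` steps of the smoothing. -/
def Gk (K : Set Pl) (G : Pl × Pl → Co) (C : ℝ) : ℕ → (Pl × Pl → ℝ) → Prop
  | 0, c => ∃ B : ℝ, ∀ x ∈ K, ∀ v : Pl, |c (x, v)| ≤ B * Real.exp (C * ‖v‖)
  | k + 1, c => (∃ B : ℝ, ∀ x ∈ K, ∀ v : Pl, |c (x, v)| ≤ B * Real.exp (C * ‖v‖)) ∧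
      Gk K G C k (PX6_E c) ∧ Gk K G C k (PX6_F G c) ∧ Gk K G C k (PX6_H G c)

/-- The function `LL UU_N` in normal coordinates. -/
noncomputable def cN (m : Pl → Co) (N : ℕ) (p : Pl × Pl) : ℝ :=
  LL (Gx m p.1) (UU (Gx m p.1) N) p.2

/-- The growth of the remainder of the parametrix, with an exponent independent of `N`. -/
def Growth (D : Set Pl) (m : Pl → Co) : Prop :=
  ∃ C : ℝ, 0 ≤ C ∧ ∀ N : ℕ, Gk (closure D) (mE m) C 2 (cN m N)

end BE73
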