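import Pool.Agent.LibBE73.X6
import Pool.Agent.LibTR29.T7

/-! Row X7: the trace formula for every `N` (cites X6). -/

open MeasureTheory Set Filter Topology
open scoped ContDiff

namespace BE73

open BGS BR TR

variable {Γ : Type} [Group Γ] [MulAction Γ Pl] {D : Set Pl}

/-- The terms `j ≥ 1` of the kernel on the diagonal. -/
theorem X7_diag (hX : Surface Γ D) (hO : Ori Γ) {m : Pl → Co} (hm : HM Γ m) (N : ℕ) :
    ∃ B : ℝ, 0 ≤ B ∧ ∀ (a : ℝ → ℂ) (ρ M τ : ℝ), 0 ≤ ρ → Amp a ρ M → 1 ≤ τ → ∀ x ∈ closure D,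
      |Kx m N (osc a τ) x ((1 : Γ) • x) - tj m (osc a τ) (1 : Γ) 0 x| ≤
        B * M * (ρ + 1) ^ (2 * N) / √τ := by
  have h1 : ∀ j : ℕ, ∃ B : ℝ, 0 ≤ B ∧ ∀ (a : ℝ → ℂ) (ρ M τ : ℝ), 0 ≤ ρ → Amp a ρ M → 1 ≤ τ →
      ∀ x ∈ closure D, |tj m (osc a τ) (1 : Γ) (j + 1) x| ≤
        B * M * (ρ + 1) ^ (2 * (j + 1)) / √τ := by
    intro j
    obtain ⟨C1, hC1⟩ := (RB_UU (Fam_Gx hX hO hm) (j + 1)).2 0
    obtain ⟨C2, hC2⟩ := BR.Ab_osc (Nat.succ_le_succ (Nat.zero_le j) : 1 ≤ j + 1)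
    refine ⟨|C1| * |C2|, by positivity, fun a ρ M τ hρ ha hτ x hx => ?_⟩
    have hM := amp_M_nonneg ha
    have hτ0 : 0 < √τ := Real.sqrt_pos.2 (by linarith)
    have hv : Vx m x ((1 : Γ) • x) = 0 := by rw [one_smul, Vx_self hX hm]
    have h2 : |UU (Gx m x) (j + 1) 0| ≤ |C1| := by
      have h3 := hC1 x hx 0
      rw [norm_iteratedFDeriv_zero, norm_zero, mul_zero, Real.exp_zero, mul_one] at h3
      exact h3.trans (le_abs_self C1)
    have h4 : |Ab (j + 1) (osc a τ) 0| ≤ |C2| * M * (ρ + 1) ^ (2 * (j + 1)) / √τ := by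
      refine (hC2 a ρ M τ 0 hρ ha hτ le_rfl).trans ?_
      have := le_abs_self C2
      gcongr
    unfold tj
    rw [hv, show sg (0 : Pl) = 0 by simp [sg], abs_mul]
    calc |UU (Gx m x) (j + 1) 0| * |Ab (j + 1) (osc a τ) 0|
        ≤ |C1| * (|C2| * M * (ρ + 1) ^ (2 * (j + 1)) / √τ) := by gcongr
      _ = _ := by ring
  choose B hB hb using h1
  refine ⟨∑ j ∈ Finset.range N, B j, Finset.sum_nonneg fun j _ => hB j,
    fun a ρ M τ hρ ha hτ x hx => ?_⟩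
  have hM := amp_M_nonneg ha
  have hτ0 : 0 < √τ := Real.sqrt_pos.2 (by linarith)
  rw [Kx_eq, Finset.sum_range_succ', add_sub_cancel_right]
  refine (Finset.abs_sum_le_sum_abs _ _).trans ?_
  calc ∑ j ∈ Finset.range N, |tj m (osc a τ) (1 : Γ) (j + 1) x|
      ≤ ∑ j ∈ Finset.range N, B j * (M * (ρ + 1) ^ (2 * N) / √τ) := by
        refine Finset.sum_le_sum fun j hj => (hb j a ρ M τ hρ ha hτ x hx).trans ?_
        have h5 : (ρ + 1) ^ (2 * (j + 1)) ≤ (ρ + 1) ^ (2 * N) := by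
          have := Finset.mem_range.1 hj
          exact pow_le_pow_right₀ (by linarith) (by omega)
        have := hB j
        calc B j * M * (ρ + 1) ^ (2 * (j + 1)) / √τ ≤ B j * M * (ρ + 1) ^ (2 * N) / √τ := by
              gcongr
          _ = _ := by ring
    _ = _ := by
        rw [← Finset.sum_mul]
        ring

theorem traceN (hX : Surface Γ D) (hO : Ori Γ) (m : Mt Γ D) (hg : Growth D m.1.1) :
    ∃ C : ℝ, 0 ≤ C ∧ ∀ N : ℕ, 6 ≤ N → ∃ B : ℝ, 0 ≤ B ∧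
      ∀ (a : ℝ → ℂ) (ρ M τ : ℝ), 0 ≤ ρ → AmpN N a ρ M → 1 ≤ τ →
      |∑' j, hh (osc a τ) (FG33.lam m j) -
        1 / (2 * Real.pi) * (∫ y in Ioi (0 : ℝ), hh (osc a τ) y * y) -
        ∑ᶠ γ ∈ {γ : Γ | γ ≠ 1}, ∫ x in D, KK (Gx m.1.1 x) N (osc a τ) (Vx m.1.1 x (γ • x)) *
          √(dt (m.1.1 x))| ≤
        B * M * ((ρ + 1) ^ (2 * N) / √τ + Real.exp (C * ρ) / τ ^ (N - 5)) := by
  classical
  have hm := hm_of_Mt m
  obtain ⟨C1, hC1, h1⟩ := trace1N hX hO m hg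
  refine ⟨C1, hC1, fun N hN => ?_⟩
  obtain ⟨B1, hB1, h1⟩ := h1 N hN
  obtain ⟨B2, hB2, h2⟩ := X7_diag hX hO hm N
  obtain ⟨C3, hC3, h3⟩ := near_fin hX hO hm
  have hρ' := BGR_rho m
  refine ⟨B1 + B2, by positivity, fun a ρ M τ hρ haN hτ => ?_⟩
  have ha := haN.amp
  have hM := amp_M_nonneg ha
  set S : Finset Γ := (h3 ρ hρ).1.toFinset with hS
  have hSn : near Γ D m.1.1 ρ ⊆ ↑S := by rw [hS, Finite.coe_toFinset]
  have h1mem : (1 : Γ) ∈ S := hSn (one_mem_near hX hm hρ)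
  have e1 : ∑ᶠ γ ∈ {γ : Γ | γ ≠ 1}, ∫ x in D, KK (Gx m.1.1 x) N (osc a τ)
      (Vx m.1.1 x (γ • x)) * √(dt (m.1.1 x))
      = ∑ γ ∈ S.erase 1, ∫ x in D, Kx m.1.1 N (osc a τ) x (γ • x) * √(dt (m.1.1 x)) := by
    refine finsum_mem_eq_sum_of_inter_support_eq _ ?_
    ext γ
    simp only [mem_inter_iff, mem_ofPred_eq, Function.mem_support, Finset.mem_coe,
      Finset.mem_erase]
    constructor
    · rintro ⟨h4, h5⟩
      refine ⟨⟨h4, ?_⟩, h5⟩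
      by_contra h6
      exact h5 (Kx_int_zero m N (osc_smooth ha τ) hρ (osc_supp ha τ) (fun h7 => h6 (hSn h7)))
    · rintro ⟨⟨h4, _⟩, h5⟩
      exact ⟨h4, h5⟩
  have e2 := identity_term hX m (osc_smooth ha τ) (osc_even ha τ) (osc_supp ha τ)
  have e3 : (∫ x in D, Kx m.1.1 N (osc a τ) x ((1 : Γ) • x) * √(dt (m.1.1 x))) +
      ∑ γ ∈ S.erase 1, ∫ x in D, Kx m.1.1 N (osc a τ) x (γ • x) * √(dt (m.1.1 x))
      = ∑ γ ∈ S, ∫ x in D, Kx m.1.1 N (osc a τ) x (γ • x) * √(dt (m.1.1 x)) :=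
    Finset.add_sum_erase S (fun γ => ∫ x in D, Kx m.1.1 N (osc a τ) x (γ • x) *
      √(dt (m.1.1 x))) h1mem
  have h4 := h1 a ρ M τ hρ haN hτ S hSn
  have h5 : |(∫ x in D, Kx m.1.1 N (osc a τ) x ((1 : Γ) • x) * √(dt (m.1.1 x))) -
      1 / (2 * Real.pi) * ∫ y in Ioi (0 : ℝ), hh (osc a τ) y * y| ≤
      B2 * M * (ρ + 1) ^ (2 * N) / √τ := by
    rw [← e2]
    have c1 : Continuous fun x => Kx m.1.1 N (osc a τ) x ((1 : Γ) • x) * √(dt (m.1.1 x)) :=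
      (Kd_cont hX hO hm N (osc_smooth ha τ) (osc_even ha τ) (osc_supp ha τ) (1 : Γ)).mul hρ'
    have c2 : Continuous fun x => tj m.1.1 (osc a τ) (1 : Γ) 0 x * √(dt (m.1.1 x)) :=
      (tj_cont hX hO hm (osc_smooth ha τ) (osc_even ha τ) (osc_supp ha τ) (1 : Γ) 0).mul hρ'
    rw [← integral_sub (Cmp_int hX c1) (Cmp_int hX c2), ← Real.norm_eq_abs]
    have h6 : ∫ x in D, (B2 * M * (ρ + 1) ^ (2 * N) / √τ) * √(dt (m.1.1 x))
        = B2 * M * (ρ + 1) ^ (2 * N) / √τ := by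
      rw [integral_const_mul, m.2.area, mul_one]
    rw [← h6]
    refine norm_integral_le_of_norm_le ((Cmp_int hX hρ').const_mul _) ?_
    filter_upwards [ae_restrict_mem hX.meas] with x hx
    rw [← sub_mul, norm_mul, Real.norm_eq_abs, Real.norm_of_nonneg (Real.sqrt_nonneg _)]
    exact mul_le_mul_of_nonneg_right (h2 a ρ M τ hρ ha hτ x (subset_closure hx))
      (Real.sqrt_nonneg _)
  rw [e1]
  have hτ0 : 0 < √τ := Real.sqrt_pos.2 (by linarith)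
  have hτ1 : 0 < τ := by linarith
  have h11 : ∑' j, hh (osc a τ) (FG33.lam m j) -
      1 / (2 * Real.pi) * (∫ y in Ioi (0 : ℝ), hh (osc a τ) y * y) -
      ∑ γ ∈ S.erase 1, ∫ x in D, Kx m.1.1 N (osc a τ) x (γ • x) * √(dt (m.1.1 x))
      = (∑' j, hh (osc a τ) (FG33.lam m j) -
        ∑ γ ∈ S, ∫ x in D, Kx m.1.1 N (osc a τ) x (γ • x) * √(dt (m.1.1 x))) +
        ((∫ x in D, Kx m.1.1 N (osc a τ) x ((1 : Γ) • x) * √(dt (m.1.1 x))) -
        1 / (2 * Real.pi) * ∫ y in Ioi (0 : ℝ), hh (osc a τ) y * y) := by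
    rw [← e3]
    ring
  rw [h11]
  refine (abs_add_le _ _).trans ((add_le_add h4 h5).trans ?_)
  have k1 : 0 ≤ M * ((ρ + 1) ^ (2 * N) / √τ) := by positivity
  have k2 : 0 ≤ M * (Real.exp (C1 * ρ) / τ ^ (N - 5)) := by positivity
  calc B1 * Real.exp (C1 * ρ) * M / τ ^ (N - 5) + B2 * M * (ρ + 1) ^ (2 * N) / √τ
      = B1 * (M * (Real.exp (C1 * ρ) / τ ^ (N - 5))) + B2 * (M * ((ρ + 1) ^ (2 * N) / √τ)) := by
        ring
    _ ≤ (B1 + B2) * (M * (Real.exp (C1 * ρ) / τ ^ (N - 5))) +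
        (B1 + B2) * (M * ((ρ + 1) ^ (2 * N) / √τ)) := by
        refine add_le_add (mul_le_mul_of_nonneg_right (by linarith) k2)
          (mul_le_mul_of_nonneg_right (by linarith) k1)
    _ = _ := by ring

end BE73
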