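import Pool.Agent.LibBE73.Defs
import Pool.Agent.LibBR70.AB5

/-! Row Y1: the transforms `Ab j (osc a τ) (r^2)` as `Re (exp(-(Iτr)) β r)`, all derivatives of `β` bounded. Only analysis.
Plan. `Ab_eq` with `σ = r^2` (`√(r^2) = r`): `-c_j ∫ t in Ioi r, g' t * (t^2 - r^2)^(j - 1/2)`,
`g' t = (exp(-(Iτt)) * (a' t - Iτ a t)).re`. Substitute `t = r + w`: `(t^2-r^2)^(j-1/2) = w^(j-1/2) (2r+w)^(j-1/2)`. So
`β r = -c_j ∫ w in Ioi 0, exp(-(Iτw)) * (a' (r+w) - Iτ a (r+w)) * w^(j-1/2) * (2r+w)^(j-1/2)` (integrable at `0`: the exponent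
is `≥ -1/2`; the integrand vanishes for `r + w > ρ`). For `r > 0` differentiate under the integral: the `k`-th derivative of
`F(r, w) = (a' - Iτ a)(r+w) * (2r+w)^(j-1/2)` in `r` is a sum of terms (derivatives of order `≤ k+1` of `a`, at most `(1+τ) M ≤ 2 τ M`
in norm) times `(j-1/2)(j-3/2).. 2^i (2r+w)^(j-1/2-i)`, `i ≤ k`, which for `r ≥ r0`, `w ≤ ρ` is `≤ C (ρ+1)^j` with `C` depending on
`r0, j, k`; and `∫_0^ρ w^(j-1/2) = ρ^(j+1/2)/(j+1/2)`. Suggestion: prove by induction on the order a statement about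
`r ↦ ∫ w in Ioi 0, exp(-(Iτw)) * f (r+w) * w^(j-1/2) * (2r+w)^s` for all real `s` and smooth `f` vanishing beyond `ρ`: its derivative
is the same expression with `f'`, plus `2 s` times the one with `s - 1`. -/

open MeasureTheory Set Filter Topology
open scoped ContDiff

namespace BE73

open BGS BR

private theorem Y1_en (τ u : ℝ) : ‖Complex.exp (-(Complex.I * τ * u))‖ = 1 := by
  have h : -(Complex.I * τ * u) = ((-(τ * u) : ℝ) : ℂ) * Complex.I := by
    push_cast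
    ring
  rw [h, Complex.norm_exp_ofReal_mul_I]

private theorem Y1_ed (τ u : ℝ) : HasDerivAt (fun u : ℝ => Complex.exp (-(Complex.I * τ * u)))
    (-(Complex.I * τ) * Complex.exp (-(Complex.I * τ * u))) u := by
  have h1 : HasDerivAt (fun u : ℝ => -(Complex.I * τ * (u : ℂ))) (-(Complex.I * τ)) u := by
    have h2 : HasDerivAt (fun u : ℝ => (u : ℂ)) 1 u := (hasDerivAt_id u).ofReal_comp
    have h3 := (h2.const_mul (Complex.I * τ)).neg
    rw [mul_one] at h3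
    exact h3
  exact h1.cexp.congr_deriv (mul_comm _ _)

private theorem Y1_ec (τ : ℝ) : Continuous fun u : ℝ => Complex.exp (-(Complex.I * τ * u)) := by
  fun_prop

/-- the kernel -/
private noncomputable def Y1_k (j : ℕ) (τ w : ℝ) : ℂ :=
  Complex.exp (-(Complex.I * τ * w)) * ((w ^ ((j : ℝ) - 1 / 2) : ℝ) : ℂ)

private theorem Y1_kn (j : ℕ) (τ : ℝ) {w : ℝ} (hw : 0 ≤ w) :
    ‖Y1_k j τ w‖ = w ^ ((j : ℝ) - 1 / 2) := by
  rw [Y1_k, norm_mul, Y1_en, one_mul, Complex.norm_real, Real.norm_of_nonneg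
    (Real.rpow_nonneg hw _)]

private theorem Y1_ri (j : ℕ) (a b : ℝ) :
    IntervalIntegrable (fun u : ℝ => u ^ ((j : ℝ) - 1 / 2)) volume a b :=
  intervalIntegral.intervalIntegrable_rpow' (by
    have h : (0 : ℝ) ≤ j := Nat.cast_nonneg j
    linarith)

private theorem Y1_ki (j : ℕ) (τ a b : ℝ) : IntervalIntegrable (Y1_k j τ) volume a b := by
  have h0 := Y1_ri j a b
  have h1 : IntervalIntegrable (fun u : ℝ => ((u ^ ((j : ℝ) - 1 / 2) : ℝ) : ℂ)) volume a b :=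
    ⟨h0.1.ofReal, h0.2.ofReal⟩
  exact h1.continuousOn_mul (Y1_ec τ).continuousOn

/-- differentiation under the integral sign -/
private theorem Y1_diff {k : ℝ → ℂ} {R : ℝ} (hR : 0 ≤ R) (hk : IntervalIntegrable k volume 0 R)
    {G G' : ℝ → ℝ → ℂ}
    (hG : ∀ r, 0 < r → ∀ w ∈ Icc 0 R, HasDerivAt (fun r => G r w) (G' r w) r)
    (hc : ContinuousOn (fun p : ℝ × ℝ => G p.1 p.2) (Ioi 0 ×ˢ Icc 0 R))
    (hc' : ContinuousOn (fun p : ℝ × ℝ => G' p.1 p.2) (Ioi 0 ×ˢ Icc 0 R)) {r : ℝ} (hr : 0 < r) :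
    HasDerivAt (fun r => ∫ w in (0:ℝ)..R, k w * G r w) (∫ w in (0:ℝ)..R, k w * G' r w) r := by
  have hsl : ∀ {H : ℝ → ℝ → ℂ}, ContinuousOn (fun p : ℝ × ℝ => H p.1 p.2) (Ioi 0 ×ˢ Icc 0 R) →
      ∀ x, 0 < x → IntervalIntegrable (fun w => k w * H x w) volume 0 R := by
    intro H hH x hx
    refine hk.mul_continuousOn ?_
    rw [uIcc_of_le hR]
    exact hH.comp (f := fun w : ℝ => (x, w)) (by fun_prop) fun w hw => ⟨hx, hw⟩
  obtain ⟨B, hB⟩ : ∃ B, ∀ p ∈ Icc (r / 2) (2 * r) ×ˢ Icc 0 R, ‖G' p.1 p.2‖ ≤ B := by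
    refine (isCompact_Icc.prod isCompact_Icc).exists_bound_of_continuousOn
      (hc'.mono (Set.prod_mono ?_ le_rfl))
    intro x hx
    exact lt_of_lt_of_le (by positivity) hx.1
  have hs : Ioo (r / 2) (2 * r) ∈ 𝓝 r := Ioo_mem_nhds (by linarith) (by linarith)
  refine (intervalIntegral.hasDerivAt_integral_of_dominated_loc_of_deriv_le
    (F := fun x w => k w * G x w) (F' := fun x w => k w * G' x w)
    (bound := fun w => ‖k w‖ * B) hs ?_ (hsl hc r hr) ?_ ?_ (hk.norm.mul_const B) ?_).2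
  · filter_upwards [lt_mem_nhds hr] with x hx
    exact (intervalIntegrable_iff.1 (hsl hc x hx)).aestronglyMeasurable
  · exact (intervalIntegrable_iff.1 (hsl hc' r hr)).aestronglyMeasurable
  · refine ae_of_all _ fun w hw x hx => ?_
    rw [uIoc_of_le hR] at hw
    rw [norm_mul]
    exact mul_le_mul_of_nonneg_left
      (hB (x, w) ⟨⟨hx.1.le, hx.2.le⟩, ⟨hw.1.le, hw.2⟩⟩) (norm_nonneg _)
  · refine ae_of_all _ fun w hw x hx => ?_
    rw [uIoc_of_le hR] at hw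
    exact (hG x (lt_trans (by positivity) hx.1) w ⟨hw.1.le, hw.2⟩).const_mul (k w)

/-- the other factor of the integrand -/
private noncomputable def Y1_G (f : ℝ → ℂ) (s r w : ℝ) : ℂ :=
  f (r + w) * (((2 * r + w) ^ s : ℝ) : ℂ)

private theorem Y1_Gc {f : ℝ → ℂ} (hf : Continuous f) (s R : ℝ) :
    ContinuousOn (fun p : ℝ × ℝ => Y1_G f s p.1 p.2) (Ioi 0 ×ˢ Icc 0 R) := by
  unfold Y1_G
  refine ContinuousOn.mul (hf.comp (by fun_prop)).continuousOn ?_
  refine Complex.continuous_ofReal.comp_continuousOn ?_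
  refine ContinuousOn.rpow_const (by fun_prop) ?_
  rintro ⟨r, w⟩ ⟨hr, hw⟩
  left
  have h1 : 0 < r := hr
  have h2 : 0 ≤ w := hw.1
  show 2 * r + w ≠ 0
  linarith

private theorem Y1_Gd {f : ℝ → ℂ} (hf : ContDiff ℝ ∞ f) (s : ℝ) {r w : ℝ} (hr : 0 < r)
    (hw : 0 ≤ w) : HasDerivAt (fun r => Y1_G f s r w)
      (Y1_G (deriv f) s r w + 2 * s * Y1_G f (s - 1) r w) r := by
  have h1 : HasDerivAt (fun r => f (r + w)) (deriv f (r + w)) r :=
    ((hf.differentiable (by simp)) (r + w)).hasDerivAt.comp_add_const r w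
  have h2 : HasDerivAt (fun r : ℝ => (2 * r + w) ^ s) (2 * s * (2 * r + w) ^ (s - 1)) r := by
    have h3 : HasDerivAt (fun r : ℝ => 2 * r + w) 2 r := by
      simpa using ((hasDerivAt_id r).const_mul 2).add_const w
    exact h3.rpow_const (Or.inl (by linarith))
  have h4 := h1.mul h2.ofReal_comp
  refine h4.congr_deriv ?_
  unfold Y1_G
  push_cast
  ring

/-- the integral -/
private noncomputable def Y1_J (j : ℕ) (τ R : ℝ) (f : ℝ → ℂ) (s r : ℝ) : ℂ :=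
  ∫ w in (0:ℝ)..R, Y1_k j τ w * Y1_G f s r w

private theorem Y1_Gi (j : ℕ) (τ : ℝ) {R : ℝ} (hR : 0 ≤ R) {f : ℝ → ℂ} (hf : Continuous f)
    (s : ℝ) {r : ℝ} (hr : 0 < r) :
    IntervalIntegrable (fun w => Y1_k j τ w * Y1_G f s r w) volume 0 R := by
  refine (Y1_ki j τ 0 R).mul_continuousOn ?_
  rw [uIcc_of_le hR]
  exact (Y1_Gc hf s R).comp (f := fun w : ℝ => (r, w)) (by fun_prop) fun w hw => ⟨hr, hw⟩

private theorem Y1_df {f : ℝ → ℂ} (hf : ContDiff ℝ ∞ f) : ContDiff ℝ ∞ (deriv f) :=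
  (contDiff_infty_iff_deriv.mp hf).2

private theorem Y1_Jd (j : ℕ) (τ : ℝ) {R : ℝ} (hR : 0 ≤ R) {f : ℝ → ℂ} (hf : ContDiff ℝ ∞ f)
    (s : ℝ) {r : ℝ} (hr : 0 < r) : HasDerivAt (Y1_J j τ R f s)
      (Y1_J j τ R (deriv f) s r + 2 * s * Y1_J j τ R f (s - 1) r) r := by
  have hf' := Y1_df hf
  have h1 := Y1_diff hR (Y1_ki j τ 0 R) (G := Y1_G f s)
    (G' := fun r w => Y1_G (deriv f) s r w + 2 * s * Y1_G f (s - 1) r w)
    (fun r hr w hw => Y1_Gd hf s hr hw.1) (Y1_Gc hf.continuous s R)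
    ((Y1_Gc hf'.continuous s R).add (continuousOn_const.mul (Y1_Gc hf.continuous (s - 1) R))) hr
  refine h1.congr_deriv ?_
  unfold Y1_J
  rw [← intervalIntegral.integral_const_mul, ← intervalIntegral.integral_add
    (Y1_Gi j τ hR hf'.continuous s hr) ((Y1_Gi j τ hR hf.continuous (s - 1) hr).const_mul _)]
  refine intervalIntegral.integral_congr fun w _ => ?_
  show Y1_k j τ w * (Y1_G (deriv f) s r w + 2 * s * Y1_G f (s - 1) r w) =
    Y1_k j τ w * Y1_G (deriv f) s r w + 2 * s * (Y1_k j τ w * Y1_G f (s - 1) r w)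
  ring

private theorem Y1_Js (j : ℕ) (τ : ℝ) {R : ℝ} (hR : 0 ≤ R) (n : ℕ) : ∀ (f : ℝ → ℂ) (s : ℝ),
    ContDiff ℝ ∞ f → ContDiffOn ℝ n (Y1_J j τ R f s) (Ioi 0) := by
  induction n with
  | zero =>
    intro f s hf
    rw [Nat.cast_zero, contDiffOn_zero]
    exact fun r hr => (Y1_Jd j τ hR hf s hr).continuousAt.continuousWithinAt
  | succ n ih =>
    intro f s hf
    rw [Nat.cast_succ, contDiffOn_succ_iff_deriv_of_isOpen isOpen_Ioi]
    refine ⟨fun r hr => (Y1_Jd j τ hR hf s hr).differentiableAt.differentiableWithinAt,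
      fun h => absurd h (by simp), ?_⟩
    have h1 : ContDiffOn ℝ n (fun r => Y1_J j τ R (deriv f) s r +
        2 * s * Y1_J j τ R f (s - 1) r) (Ioi 0) :=
      (ih (deriv f) s (Y1_df hf)).add (contDiffOn_const.mul (ih f (s - 1) hf))
    exact h1.congr fun r hr => (Y1_Jd j τ hR hf s hr).deriv

private theorem Y1_Jsi (j : ℕ) (τ : ℝ) {R : ℝ} (hR : 0 ≤ R) (f : ℝ → ℂ) (s : ℝ)
    (hf : ContDiff ℝ ∞ f) : ContDiffOn ℝ ∞ (Y1_J j τ R f s) (Ioi 0) :=
  contDiffOn_infty.2 fun n => Y1_Js j τ hR n f s hf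

/-- the power of the other factor -/
private theorem Y1_pow {j : ℕ} {ρ r0 s r w : ℝ} (hr0 : 0 < r0) (hρ : 0 ≤ ρ) (hs : s ≤ j)
    (hr : r0 ≤ r) (hw : 0 ≤ w) (hrw : r + w ≤ ρ) :
    (2 * r + w) ^ s ≤ (2 ^ s + (2 * r0) ^ s) * (ρ + 1) ^ j := by
  have hA : 1 ≤ ρ + 1 := by linarith
  have hA1 : 1 ≤ (ρ + 1) ^ j := one_le_pow₀ hA
  have h0 : 0 ≤ (2 : ℝ) ^ s := Real.rpow_nonneg (by norm_num) s
  have h1 : 0 ≤ (2 * r0) ^ s := Real.rpow_nonneg (by positivity) s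
  rcases le_or_gt 0 s with h | h
  · calc (2 * r + w) ^ s ≤ (2 * (ρ + 1)) ^ s :=
        Real.rpow_le_rpow (by linarith) (by linarith) h
      _ = 2 ^ s * (ρ + 1) ^ s := Real.mul_rpow (by norm_num) (by linarith)
      _ ≤ 2 ^ s * (ρ + 1) ^ j := by
        refine mul_le_mul_of_nonneg_left ?_ h0
        rw [← Real.rpow_natCast]
        exact Real.rpow_le_rpow_of_exponent_le hA hs
      _ ≤ (2 ^ s + (2 * r0) ^ s) * (ρ + 1) ^ j :=
        mul_le_mul_of_nonneg_right (by linarith) (by positivity)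
  · calc (2 * r + w) ^ s ≤ (2 * r0) ^ s :=
        Real.rpow_le_rpow_of_nonpos (by positivity) (by linarith) h.le
      _ = (2 * r0) ^ s * 1 := (mul_one _).symm
      _ ≤ (2 ^ s + (2 * r0) ^ s) * (ρ + 1) ^ j :=
        mul_le_mul (by linarith) hA1 zero_le_one (by positivity)

private theorem Y1_b0 {j : ℕ} {τ ρ N r0 s r : ℝ} {f : ℝ → ℂ} (hr0 : 0 < r0) (hρ : 0 ≤ ρ)
    (hN : ∀ t, ‖f t‖ ≤ N) (hz : ∀ t, ρ < t → f t = 0) (hs : s ≤ j) (hr : r0 ≤ r) :
    ‖Y1_J j τ (ρ + 1) f s r‖ ≤ 2 * (2 ^ s + (2 * r0) ^ s) * N * (ρ + 1) ^ (2 * j + 1) := by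
  have hN0 : 0 ≤ N := (norm_nonneg _).trans (hN 0)
  have hA : 1 ≤ ρ + 1 := by linarith
  have hj : (0 : ℝ) ≤ j := Nat.cast_nonneg j
  have h0 : 0 ≤ (2 : ℝ) ^ s := Real.rpow_nonneg (by norm_num) s
  have h1 : 0 ≤ (2 * r0) ^ s := Real.rpow_nonneg (by positivity) s
  obtain ⟨E, hE⟩ : ∃ E : ℝ, E = N * ((2 ^ s + (2 * r0) ^ s) * (ρ + 1) ^ j) := ⟨_, rfl⟩
  have hE0 : 0 ≤ E := by
    rw [hE]
    positivity
  have hpt : ∀ w : ℝ, w ∈ Ioc 0 (ρ + 1) → ‖Y1_k j τ w * Y1_G f s r w‖ ≤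
      w ^ ((j : ℝ) - 1 / 2) * E := by
    intro w hw
    rw [norm_mul, Y1_kn j τ hw.1.le]
    refine mul_le_mul_of_nonneg_left ?_ (Real.rpow_nonneg hw.1.le _)
    unfold Y1_G
    by_cases hrw : ρ < r + w
    · rw [hz _ hrw, zero_mul, norm_zero]
      exact hE0
    · have h2 := Y1_pow (j := j) hr0 hρ hs hr hw.1.le (not_lt.1 hrw)
      have h3 : 0 ≤ (2 * r + w) ^ s := Real.rpow_nonneg (by linarith [hw.1]) s
      rw [norm_mul, Complex.norm_real, Real.norm_of_nonneg h3, hE]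
      exact mul_le_mul (hN _) h2 h3 hN0
  have h2 := intervalIntegral.norm_integral_le_of_norm_le (by linarith : (0 : ℝ) ≤ ρ + 1)
    (ae_of_all _ hpt) ((Y1_ri j 0 (ρ + 1)).mul_const E)
  refine h2.trans ?_
  rw [intervalIntegral.integral_mul_const, integral_rpow (Or.inl (by linarith)),
    Real.zero_rpow (by linarith), sub_zero]
  have h3 : (ρ + 1) ^ ((j : ℝ) - 1 / 2 + 1) / ((j : ℝ) - 1 / 2 + 1) ≤ 2 * (ρ + 1) ^ (j + 1) := by
    have h4 : (ρ + 1) ^ ((j : ℝ) - 1 / 2 + 1) ≤ (ρ + 1) ^ (j + 1) := by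
      rw [← Real.rpow_natCast]
      refine Real.rpow_le_rpow_of_exponent_le hA ?_
      push_cast
      linarith
    have h5 : 0 ≤ (ρ + 1) ^ (j + 1) := by positivity
    rw [div_le_iff₀ (by linarith)]
    nlinarith [mul_nonneg h5 hj]
  calc (ρ + 1) ^ ((j : ℝ) - 1 / 2 + 1) / ((j : ℝ) - 1 / 2 + 1) * E ≤
        2 * (ρ + 1) ^ (j + 1) * E := mul_le_mul_of_nonneg_right h3 hE0
    _ = 2 * (2 ^ s + (2 * r0) ^ s) * N * (ρ + 1) ^ (2 * j + 1) := by
      rw [hE]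
      ring

/-- the constants -/
private noncomputable def Y1_C (r0 : ℝ) : ℕ → ℝ → ℝ
  | 0, s => 2 * (2 ^ s + (2 * r0) ^ s)
  | k + 1, s => Y1_C r0 k s + 2 * |s| * Y1_C r0 k (s - 1)

private theorem Y1_C0 {r0 : ℝ} (hr0 : 0 < r0) (k : ℕ) : ∀ s, 0 ≤ Y1_C r0 k s := by
  induction k with
  | zero =>
    intro s
    have h0 : 0 ≤ (2 : ℝ) ^ s := Real.rpow_nonneg (by norm_num) s
    have h1 : 0 ≤ (2 * r0) ^ s := Real.rpow_nonneg (by positivity) s
    show 0 ≤ 2 * (2 ^ s + (2 * r0) ^ s)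
    positivity
  | succ k ih =>
    intro s
    show 0 ≤ Y1_C r0 k s + 2 * |s| * Y1_C r0 k (s - 1)
    have h1 := ih s
    have h2 := ih (s - 1)
    positivity

private theorem Y1_it {j : ℕ} {τ ρ N r0 : ℝ} (hr0 : 0 < r0) (hρ : 0 ≤ ρ) (k : ℕ) :
    ∀ (f : ℝ → ℂ) (s : ℝ), ContDiff ℝ ∞ f → (∀ t, ρ < t → f t = 0) →
      (∀ i ≤ k, ∀ t, ‖iteratedDeriv i f t‖ ≤ N) → s ≤ j → ∀ r, r0 ≤ r →
      ‖iteratedDeriv k (Y1_J j τ (ρ + 1) f s) r‖ ≤ Y1_C r0 k s * N * (ρ + 1) ^ (2 * j + 1) := by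
  have hR : 0 ≤ ρ + 1 := by linarith
  induction k with
  | zero =>
    intro f s hf hz hN hs r hr
    rw [iteratedDeriv_zero]
    refine Y1_b0 hr0 hρ (fun t => ?_) hz hs hr
    have h1 := hN 0 le_rfl t
    rwa [iteratedDeriv_zero] at h1
  | succ k ih =>
    intro f s hf hz hN hs r hr
    have hr' : 0 < r := lt_of_lt_of_le hr0 hr
    have hf' := Y1_df hf
    have hz' : ∀ t, ρ < t → deriv f t = 0 := by
      intro t ht
      have he : f =ᶠ[𝓝 t] fun _ => 0 := by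
        filter_upwards [lt_mem_nhds ht] with u hu
        exact hz u hu
      rw [he.deriv_eq]
      simp
    have h1 := ih (deriv f) s hf' hz' (fun i hi t => by
      rw [← iteratedDeriv_succ']
      exact hN (i + 1) (by omega) t) hs r hr
    have h2 := ih f (s - 1) hf hz (fun i hi t => hN i (by omega) t) (by linarith) r hr
    have he : deriv (Y1_J j τ (ρ + 1) f s) =ᶠ[𝓝 r] fun r => Y1_J j τ (ρ + 1) (deriv f) s r +
        2 * s * Y1_J j τ (ρ + 1) f (s - 1) r := by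
      filter_upwards [lt_mem_nhds hr'] with u hu
      exact (Y1_Jd j τ hR hf s hu).deriv
    have c1 : ContDiffAt ℝ k (Y1_J j τ (ρ + 1) (deriv f) s) r :=
      (Y1_Js j τ hR k (deriv f) s hf').contDiffAt (Ioi_mem_nhds hr')
    have c2 : ContDiffAt ℝ k (Y1_J j τ (ρ + 1) f (s - 1)) r :=
      (Y1_Js j τ hR k f (s - 1) hf).contDiffAt (Ioi_mem_nhds hr')
    rw [iteratedDeriv_succ', he.iteratedDeriv_eq,
      iteratedDeriv_fun_add c1 (contDiffAt_const.mul c2), iteratedDeriv_const_mul_field]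
    refine (norm_add_le _ _).trans ?_
    rw [norm_mul, norm_mul, Complex.norm_real, Real.norm_eq_abs, Complex.norm_ofNat]
    calc _ ≤ Y1_C r0 k s * N * (ρ + 1) ^ (2 * j + 1) +
          2 * |s| * (Y1_C r0 k (s - 1) * N * (ρ + 1) ^ (2 * j + 1)) :=
        add_le_add h1 (mul_le_mul_of_nonneg_left h2 (by positivity))
      _ = (Y1_C r0 k s + 2 * |s| * Y1_C r0 k (s - 1)) * N * (ρ + 1) ^ (2 * j + 1) := by ring

/-- the derivative of the test function -/
private theorem Y1_osc {a : ℝ → ℂ} {ρ M : ℝ} (ha : Amp a ρ M) (τ t : ℝ) :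
    deriv (osc a τ) t =
      (Complex.exp (-(Complex.I * τ * t)) * (deriv a t - Complex.I * τ * a t)).re := by
  have hd : HasDerivAt a (deriv a t) t := ((ha.smooth.differentiable (by simp)) t).hasDerivAt
  have h := (Y1_ed τ t).mul hd
  have h2 := (Complex.reCLM.hasFDerivAt.comp_hasDerivAt t h).deriv
  have h3 : deriv (osc a τ) t = (-(Complex.I * τ) * Complex.exp (-(Complex.I * τ * t)) * a t +
      Complex.exp (-(Complex.I * τ * t)) * deriv a t).re := h2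
  rw [h3]
  congr 1
  ring

private theorem Y1_tl {a : ℝ → ℂ} {ρ M : ℝ} (hρ : 0 ≤ ρ) (ha : Amp a ρ M) (τ : ℝ) :
    Tl (osc a τ) ρ := by
  refine ⟨osc_smooth ha τ, fun t ht => ?_⟩
  unfold osc
  rw [ha.supp t (by rwa [abs_of_pos (lt_of_le_of_lt hρ ht)]), mul_zero, Complex.zero_re]

/-- the integral of the transform -/
private theorem Y1_key {a : ℝ → ℂ} {ρ M τ : ℝ} (hρ : 0 ≤ ρ) (ha : Amp a ρ M) (j : ℕ) {r : ℝ}
    (hr : 0 < r) : ∫ t in Ioi r, deriv (osc a τ) t * (t ^ 2 - r ^ 2) ^ ((j : ℝ) - 1 / 2) =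
      (Complex.exp (-(Complex.I * τ * r)) * Y1_J j τ (ρ + 1)
        (fun t => deriv a t - Complex.I * τ * a t) ((j : ℝ) - 1 / 2) r).re := by
  have hR : 0 ≤ ρ + 1 := by linarith
  obtain ⟨f, hf⟩ : ∃ f : ℝ → ℂ, f = fun t => deriv a t - Complex.I * τ * a t := ⟨_, rfl⟩
  obtain ⟨s, hs⟩ : ∃ s : ℝ, s = (j : ℝ) - 1 / 2 := ⟨_, rfl⟩
  have hfc : Continuous f := by
    rw [hf]
    exact (Y1_df ha.smooth).continuous.sub (continuous_const.mul ha.smooth.continuous)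
  have ha0 : ∀ t, ρ < t → a t = 0 := fun t ht =>
    ha.supp t (by rwa [abs_of_pos (lt_of_le_of_lt hρ ht)])
  have hf0 : ∀ t, ρ < t → f t = 0 := by
    intro t ht
    have he : a =ᶠ[𝓝 t] fun _ => 0 := by
      filter_upwards [lt_mem_nhds ht] with u hu
      exact ha0 u hu
    rw [hf]
    show deriv a t - Complex.I * τ * a t = 0
    rw [he.deriv_eq, ha0 t ht]
    simp
  rw [← hf, ← hs]
  have e1 : ∫ t in Ioi r, deriv (osc a τ) t * (t ^ 2 - r ^ 2) ^ s =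
      ∫ w in Ioi (0 : ℝ), (Complex.exp (-(Complex.I * τ * r)) *
        (Y1_k j τ w * Y1_G f s r w)).re := by
    rw [← integral_indicator measurableSet_Ioi, ← integral_indicator measurableSet_Ioi,
      ← integral_add_left_eq_self _ r]
    congr 1
    ext w
    by_cases hw : 0 < w
    · rw [indicator_of_mem (show r + w ∈ Ioi r from by simpa using hw),
        indicator_of_mem (show w ∈ Ioi (0 : ℝ) from hw), Y1_osc ha τ (r + w)]
      have e2 : (r + w) ^ 2 - r ^ 2 = w * (2 * r + w) := by ring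
      have e3 : ((w * (2 * r + w)) ^ s : ℝ) = w ^ s * (2 * r + w) ^ s :=
        Real.mul_rpow hw.le (by linarith)
      rw [e2, e3]
      unfold Y1_k Y1_G
      rw [← hs, hf]
      have e4 : Complex.exp (-(Complex.I * τ * ((r + w : ℝ) : ℂ))) =
          Complex.exp (-(Complex.I * τ * r)) * Complex.exp (-(Complex.I * τ * w)) := by
        rw [← Complex.exp_add]
        congr 1
        push_cast
        ring
      rw [e4]
      have e5 : Complex.exp (-(Complex.I * τ * r)) *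
          (Complex.exp (-(Complex.I * τ * w)) * ((w ^ s : ℝ) : ℂ) *
            ((deriv a (r + w) - Complex.I * τ * a (r + w)) * (((2 * r + w) ^ s : ℝ) : ℂ))) =
          ((w ^ s * (2 * r + w) ^ s : ℝ) : ℂ) *
            (Complex.exp (-(Complex.I * τ * r)) * Complex.exp (-(Complex.I * τ * w)) *
            (deriv a (r + w) - Complex.I * τ * a (r + w))) := by
        push_cast
        ring
      show _ = (Complex.exp (-(Complex.I * τ * r)) *
          (Complex.exp (-(Complex.I * τ * w)) * ((w ^ s : ℝ) : ℂ) *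
            ((deriv a (r + w) - Complex.I * τ * a (r + w)) * (((2 * r + w) ^ s : ℝ) : ℂ)))).re
      rw [e5, Complex.re_ofReal_mul]
      ring
    · rw [indicator_of_notMem (show r + w ∉ Ioi r from by simpa using hw),
        indicator_of_notMem (show w ∉ Ioi (0 : ℝ) from hw)]
  have e2 : ∫ w in Ioi (0 : ℝ), (Complex.exp (-(Complex.I * τ * r)) *
        (Y1_k j τ w * Y1_G f s r w)).re =
      ∫ w in (0:ℝ)..(ρ + 1), (Complex.exp (-(Complex.I * τ * r)) *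
        (Y1_k j τ w * Y1_G f s r w)).re := by
    rw [intervalIntegral.integral_of_le hR]
    refine setIntegral_eq_of_subset_of_forall_sdiff_eq_zero measurableSet_Ioi
      (fun w hw => hw.1) ?_
    rintro w ⟨hw1, hw2⟩
    have h1 : 0 < w := hw1
    have h2 : ρ + 1 < w := by
      by_contra h3
      exact hw2 ⟨h1, not_lt.1 h3⟩
    unfold Y1_G
    rw [hf0 _ (by linarith)]
    simp
  have hint := (Y1_Gi j τ hR hfc s hr).const_mul (Complex.exp (-(Complex.I * τ * r)))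
  have e3 := Complex.reCLM.intervalIntegral_comp_comm hint
  rw [e1, e2]
  refine Eq.trans e3 ?_
  rw [intervalIntegral.integral_const_mul]
  rfl

theorem Ab_amp (j n : ℕ) {r0 : ℝ} (hr0 : 0 < r0) : ∃ C : ℝ, 0 ≤ C ∧ ∀ (a : ℝ → ℂ)
    (ρ M τ : ℝ), 0 ≤ ρ → AmpN (n + 1) a ρ M → 1 ≤ τ →
    ∃ β : ℝ → ℂ, ContDiffOn ℝ ∞ β (Ioi 0) ∧
      (∀ r, 0 < r → Ab j (osc a τ) (r ^ 2) = (Complex.exp (-(Complex.I * τ * r)) * β r).re) ∧
      (∀ r, ρ < r → β r = 0) ∧
      ∀ k ≤ n, ∀ r, r0 ≤ r → ‖iteratedDeriv k β r‖ ≤ C * M * (ρ + 1) ^ (2 * j + 1) * τ := by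
  obtain ⟨c, hc⟩ : ∃ c : ℝ, c = 1 / (√Real.pi * Real.Gamma ((j : ℝ) + 1 / 2)) := ⟨_, rfl⟩
  have hc0 : 0 ≤ c := by
    have : 0 < Real.Gamma ((j : ℝ) + 1 / 2) := Real.Gamma_pos_of_pos (by positivity)
    rw [hc]
    positivity
  obtain ⟨s, hs⟩ : ∃ s : ℝ, s = (j : ℝ) - 1 / 2 := ⟨_, rfl⟩
  have hS : 0 ≤ ∑ i ∈ Finset.range (n + 1), Y1_C r0 i s :=
    Finset.sum_nonneg fun i _ => Y1_C0 hr0 i s
  refine ⟨2 * c * ∑ i ∈ Finset.range (n + 1), Y1_C r0 i s, by positivity, ?_⟩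
  intro a ρ M τ hρ ha hτ
  have hR : 0 ≤ ρ + 1 := by linarith
  have hM0 : 0 ≤ M := (norm_nonneg _).trans (ha.bound 0 (by omega) 0)
  obtain ⟨f, hf⟩ : ∃ f : ℝ → ℂ, f = fun t => deriv a t - Complex.I * τ * a t := ⟨_, rfl⟩
  have hfs : ContDiff ℝ ∞ f := by
    rw [hf]
    exact (Y1_df ha.amp.smooth).sub (contDiff_const.mul ha.amp.smooth)
  have ha0 : ∀ t, ρ < t → a t = 0 := fun t ht =>
    ha.amp.supp t (by rwa [abs_of_pos (lt_of_le_of_lt hρ ht)])
  have hf0 : ∀ t, ρ < t → f t = 0 := by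
    intro t ht
    have he : a =ᶠ[𝓝 t] fun _ => 0 := by
      filter_upwards [lt_mem_nhds ht] with u hu
      exact ha0 u hu
    rw [hf]
    show deriv a t - Complex.I * τ * a t = 0
    rw [he.deriv_eq, ha0 t ht]
    simp
  have hfb : ∀ i ≤ n, ∀ t, ‖iteratedDeriv i f t‖ ≤ 2 * τ * M := by
    intro i hi t
    have c1 : ContDiffAt ℝ i (deriv a) t :=
      (Y1_df ha.amp.smooth).contDiffAt.of_le (by exact_mod_cast le_top)
    have c2 : ContDiffAt ℝ i a t := ha.amp.smooth.contDiffAt.of_le (by exact_mod_cast le_top)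
    rw [hf, iteratedDeriv_fun_sub c1 (contDiffAt_const.mul c2), iteratedDeriv_const_mul_field,
      ← iteratedDeriv_succ']
    refine (norm_sub_le _ _).trans ?_
    rw [norm_mul, norm_mul, Complex.norm_I, one_mul, Complex.norm_real,
      Real.norm_of_nonneg (by linarith)]
    have h1 := ha.bound (i + 1) (by omega) t
    have h2 := ha.bound i (by omega) t
    calc _ ≤ M + τ * M := add_le_add h1 (mul_le_mul_of_nonneg_left h2 (by linarith))
      _ ≤ 2 * τ * M := by nlinarith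
  refine ⟨fun r => ((-c : ℝ) : ℂ) * Y1_J j τ (ρ + 1) f s r, ?_, ?_, ?_, ?_⟩
  · exact contDiffOn_const.mul (Y1_Jsi j τ hR f s hfs)
  · intro r hr
    have h1 := Ab_eq hρ (Y1_tl hρ ha.amp τ) j (sq_nonneg r)
    rw [Real.sqrt_sq hr.le, Y1_key hρ ha.amp j hr, ← hf, ← hs, ← hc] at h1
    rw [h1]
    have e1 : Complex.exp (-(Complex.I * τ * r)) *
        (((-c : ℝ) : ℂ) * Y1_J j τ (ρ + 1) f s r) = ((-c : ℝ) : ℂ) *
        (Complex.exp (-(Complex.I * τ * r)) * Y1_J j τ (ρ + 1) f s r) := by ring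
    show _ = (Complex.exp (-(Complex.I * τ * r)) *
        (((-c : ℝ) : ℂ) * Y1_J j τ (ρ + 1) f s r)).re
    rw [e1, Complex.re_ofReal_mul]
    ring
  · intro r hr
    have h1 : Y1_J j τ (ρ + 1) f s r = 0 := by
      unfold Y1_J
      rw [← intervalIntegral.integral_zero (a := (0 : ℝ)) (b := ρ + 1) (μ := volume) (E := ℂ)]
      refine intervalIntegral.integral_congr fun w hw => ?_
      rw [uIcc_of_le hR] at hw
      show Y1_k j τ w * Y1_G f s r w = 0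
      unfold Y1_G
      rw [hf0 _ (by linarith [hw.1])]
      simp
    show ((-c : ℝ) : ℂ) * Y1_J j τ (ρ + 1) f s r = 0
    rw [h1, mul_zero]
  · intro k hk r hr
    have hsj : s ≤ j := by
      rw [hs]
      linarith
    have h1 := Y1_it (j := j) (τ := τ) (N := 2 * τ * M) hr0 hρ k f s hfs hf0
      (fun i hi t => hfb i (hi.trans hk) t) hsj r hr
    rw [iteratedDeriv_const_mul_field, norm_mul, Complex.norm_real, norm_neg,
      Real.norm_of_nonneg hc0]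
    have h2 : Y1_C r0 k s ≤ ∑ i ∈ Finset.range (n + 1), Y1_C r0 i s :=
      Finset.single_le_sum (f := fun i => Y1_C r0 i s) (fun i _ => Y1_C0 hr0 i s)
        (Finset.mem_range.2 (by omega))
    have h3 : 0 ≤ 2 * τ * M := by positivity
    calc c * ‖iteratedDeriv k (Y1_J j τ (ρ + 1) f s) r‖
        ≤ c * (Y1_C r0 k s * (2 * τ * M) * (ρ + 1) ^ (2 * j + 1)) :=
          mul_le_mul_of_nonneg_left h1 hc0
      _ ≤ c * ((∑ i ∈ Finset.range (n + 1), Y1_C r0 i s) * (2 * τ * M) *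
            (ρ + 1) ^ (2 * j + 1)) := by
          refine mul_le_mul_of_nonneg_left ?_ hc0
          exact mul_le_mul_of_nonneg_right (mul_le_mul_of_nonneg_right h2 h3) (by positivity)
      _ = 2 * c * (∑ i ∈ Finset.range (n + 1), Y1_C r0 i s) * M *
            (ρ + 1) ^ (2 * j + 1) * τ := by ring

end BE73
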