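import Pool.Agent.LibBE73.Defs
import Pool.Agent.LibBR70.AB5
import Pool.Agent.LibBR70.AB6

/-! Row Y2: the sharp bound of the leading transform. Only analysis.
Plan. As in row AB6 (read `AB6_k`, `AB6_K` and the proof of the case `j = 1`): for `σ = r^2`, `r ≥ r0`, `Ab_eq` with `j = 0`:
`-(1/π) ∫ t in Ioi r, g' t * (t^2 - r^2)^(-1/2)` (`√π Γ(1/2) = π`), `g' t = (exp(-(Iτt)) (a' t - Iτ a t)).re`. The part with `a'` is
`≤ M ∫_r^ρ (t-r)^(-1/2) (t+r)^(-1/2) dt ≤ C M √(ρ+1)`, `C` depending on `r0`. The part with `τ a`: put `b t = a t (t+r)^(-1/2)`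
(`‖b‖ ≤ M r0^(-1/2)`, `‖b'‖ ≤ M (r0^(-1/2) + r0^(-3/2))`), `τ ∫_r^ρ exp(-(Iτt)) b t (t-r)^(-1/2) dt`: on `t - r ≤ 1/τ` the bound
is `τ ‖b‖ 2 τ^(-1/2)`; on the rest integrate by parts: boundary term `≤ ‖b‖ τ^(1/2)` and
`∫ ‖b'‖ (t-r)^(-1/2) + ‖b‖ (t-r)^(-3/2)/2 ≤ C M ((ρ+1)^(1/2) + τ^(1/2))`. Total `≤ C M (ρ+1) √τ`. (Or use the primitive `AB6_K`
of the singular kernel, `‖AB6_K τ x‖ ≤ C τ^(-1/2)`, and one integration by parts.) -/

open MeasureTheory Set Filter Topology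
open scoped ContDiff

namespace BE73

open BGS BR

private theorem Y2_en (τ u : ℝ) : ‖Complex.exp (-(Complex.I * τ * u))‖ = 1 := by
  have h : -(Complex.I * τ * u) = ((-(τ * u) : ℝ) : ℂ) * Complex.I := by
    push_cast
    ring
  rw [h, Complex.norm_exp_ofReal_mul_I]

private theorem Y2_ed (τ u : ℝ) : HasDerivAt (fun u : ℝ => Complex.exp (-(Complex.I * τ * u)))
    (-(Complex.I * τ) * Complex.exp (-(Complex.I * τ * u))) u := by
  have h1 : HasDerivAt (fun u : ℝ => -(Complex.I * τ * (u : ℂ))) (-(Complex.I * τ)) u := by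
    have h2 : HasDerivAt (fun u : ℝ => (u : ℂ)) 1 u := (hasDerivAt_id u).ofReal_comp
    have h3 := (h2.const_mul (Complex.I * τ)).neg
    rw [mul_one] at h3
    exact h3
  exact h1.cexp.congr_deriv (mul_comm _ _)

private theorem Y2_ec (τ : ℝ) : Continuous fun u : ℝ => Complex.exp (-(Complex.I * τ * u)) := by
  fun_prop

/-- the singular oscillating kernel -/
private noncomputable def Y2_k (τ u : ℝ) : ℂ :=
  Complex.exp (-(Complex.I * τ * u)) * ((u ^ (-(1 / 2) : ℝ) : ℝ) : ℂ)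

private theorem Y2_k_norm (τ : ℝ) {u : ℝ} (hu : 0 ≤ u) : ‖Y2_k τ u‖ = u ^ (-(1 / 2) : ℝ) := by
  rw [Y2_k, norm_mul, Y2_en, one_mul, Complex.norm_real, Real.norm_of_nonneg
    (Real.rpow_nonneg hu _)]

private theorem Y2_k_int (τ a b : ℝ) : IntervalIntegrable (Y2_k τ) volume a b := by
  have h0 : IntervalIntegrable (fun u : ℝ => u ^ (-(1 / 2) : ℝ)) volume a b :=
    intervalIntegral.intervalIntegrable_rpow' (by norm_num)
  have h1 : IntervalIntegrable (fun u : ℝ => ((u ^ (-(1 / 2) : ℝ) : ℝ) : ℂ)) volume a b :=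
    ⟨h0.1.ofReal, h0.2.ofReal⟩
  exact h1.continuousOn_mul (Y2_ec τ).continuousOn

/-- its primitive -/
private noncomputable def Y2_K (τ x : ℝ) : ℂ := ∫ u in (0 : ℝ)..x, Y2_k τ u

private theorem Y2_rpow_int {x : ℝ} (hx : 0 ≤ x) :
    ∫ u in (0 : ℝ)..x, u ^ (-(1 / 2) : ℝ) = 2 * √x := by
  rw [integral_rpow (Or.inl (by norm_num)), Real.zero_rpow (by norm_num), Real.sqrt_eq_rpow]
  norm_num
  ring

private theorem Y2_K_le (τ : ℝ) {x : ℝ} (hx : 0 ≤ x) : ‖Y2_K τ x‖ ≤ 2 * √x := by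
  refine (intervalIntegral.norm_integral_le_integral_norm hx).trans (le_of_eq ?_)
  rw [← Y2_rpow_int hx]
  refine intervalIntegral.integral_congr fun u hu => ?_
  rw [uIcc_of_le hx] at hu
  exact Y2_k_norm τ hu.1

private theorem Y2_K_deriv (τ : ℝ) {x : ℝ} (hx : 0 < x) :
    HasDerivAt (Y2_K τ) (Y2_k τ x) x := by
  have hm : Measurable (Y2_k τ) := by
    unfold Y2_k
    fun_prop
  have hc : ContinuousAt (Y2_k τ) x := by
    unfold Y2_k
    refine ContinuousAt.mul (Y2_ec τ).continuousAt ?_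
    exact Complex.continuous_ofReal.continuousAt.comp
      (Real.continuousAt_rpow_const x _ (Or.inl hx.ne'))
  exact intervalIntegral.integral_hasDerivAt_right (Y2_k_int τ 0 x)
    (hm.stronglyMeasurable.stronglyMeasurableAtFilter) hc

private theorem Y2_tail {τ x : ℝ} (hτ : 0 < τ) (hx : 1 / τ ≤ x) :
    ‖∫ u in (1 / τ)..x, Y2_k τ u‖ ≤ 2 / √τ := by
  have h1τ : 0 < 1 / τ := by positivity
  have hx0 : 0 < x := lt_of_lt_of_le h1τ hx
  have hsub : ∀ u ∈ uIcc (1 / τ) x, 0 < u := fun u hu => by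
    rw [uIcc_of_le hx] at hu
    exact lt_of_lt_of_le h1τ hu.1
  have hIτ : (-(Complex.I * τ) : ℂ) ≠ 0 := by
    simp [hτ.ne']
  set w : ℝ → ℂ := fun u => ((u ^ (-(1 / 2) : ℝ) : ℝ) : ℂ) with hw
  set w' : ℝ → ℂ := fun u => ((-(1 / 2) * u ^ (-(3 / 2) : ℝ) : ℝ) : ℂ) with hw'
  set v : ℝ → ℂ := fun u => (-(Complex.I * τ))⁻¹ * Complex.exp (-(Complex.I * τ * u)) with hv
  have hwd : ∀ u ∈ uIcc (1 / τ) x, HasDerivAt w (w' u) u := by
    intro u hu
    have h := (Real.hasDerivAt_rpow_const (p := (-(1 / 2) : ℝ)) (Or.inl (hsub u hu).ne')).ofReal_comp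
    have e : (-(1 / 2) : ℝ) - 1 = -(3 / 2) := by norm_num
    rw [e] at h
    exact h
  have hvd : ∀ u ∈ uIcc (1 / τ) x, HasDerivAt v (Complex.exp (-(Complex.I * τ * u))) u := by
    intro u _
    have h := (Y2_ed τ u).const_mul (-(Complex.I * τ : ℂ))⁻¹
    rw [← mul_assoc, inv_mul_cancel₀ hIτ, one_mul] at h
    exact h
  have hw'c : ContinuousOn w' (uIcc (1 / τ) x) := by
    refine Complex.continuous_ofReal.comp_continuousOn ?_
    refine ContinuousOn.mul continuousOn_const fun u hu => ?_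
    exact (Real.continuousAt_rpow_const u _ (Or.inl (hsub u hu).ne')).continuousWithinAt
  have hparts := intervalIntegral.integral_mul_deriv_eq_deriv_mul hwd hvd
    hw'c.intervalIntegrable (Y2_ec τ).continuousOn.intervalIntegrable
  have e1 : (∫ u in (1 / τ)..x, Y2_k τ u) =
      ∫ u in (1 / τ)..x, w u * Complex.exp (-(Complex.I * τ * u)) := by
    congr 1
    ext u
    rw [Y2_k, mul_comm]
  rw [e1, hparts]
  have hvn : ∀ u, ‖v u‖ = 1 / τ := by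
    intro u
    rw [hv]
    simp only [norm_mul, Y2_en, mul_one, norm_inv, norm_neg, Complex.norm_I, Complex.norm_real,
      one_mul, Real.norm_of_nonneg hτ.le, one_div]
  have hwn : ∀ u, 0 < u → ‖w u‖ = u ^ (-(1 / 2) : ℝ) := by
    intro u hu
    rw [hw]
    simp only [Complex.norm_real]
    exact Real.norm_of_nonneg (Real.rpow_nonneg hu.le _)
  have hint : ‖∫ u in (1 / τ)..x, w' u * v u‖ ≤
      (1 / τ) * ((1 / τ) ^ (-(1 / 2) : ℝ) - x ^ (-(1 / 2) : ℝ)) := by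
    refine (intervalIntegral.norm_integral_le_integral_norm hx).trans (le_of_eq ?_)
    have e2 : (∫ u in (1 / τ)..x, ‖w' u * v u‖) =
        ∫ u in (1 / τ)..x, (1 / τ) * (1 / 2) * u ^ (-(3 / 2) : ℝ) := by
      refine intervalIntegral.integral_congr fun u hu => ?_
      have hu0 := hsub u hu
      show ‖w' u * v u‖ = _
      rw [norm_mul, hvn]
      have : ‖w' u‖ = 1 / 2 * u ^ (-(3 / 2) : ℝ) := by
        rw [hw']
        simp only [Complex.norm_real, Real.norm_eq_abs]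
        rw [abs_mul, abs_of_nonneg (Real.rpow_nonneg hu0.le _)]
        norm_num
      rw [this]
      ring
    rw [e2, intervalIntegral.integral_const_mul, integral_rpow (Or.inr ⟨by norm_num, by
      intro h0
      exact lt_irrefl _ (hsub 0 h0)⟩)]
    norm_num
    ring
  have h4 : (1 / τ) ^ (-(1 / 2) : ℝ) = √τ := by
    rw [one_div, Real.inv_rpow hτ.le, Real.rpow_neg hτ.le, inv_inv, Real.sqrt_eq_rpow]
  have hs : 0 < √τ := Real.sqrt_pos.2 hτ
  have h5 : 1 / τ * √τ = 1 / √τ := by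
    have : τ = √τ * √τ := (Real.mul_self_sqrt hτ.le).symm
    field_simp
    nlinarith
  have h6 := norm_sub_le (w x * v x - w (1 / τ) * v (1 / τ)) (∫ u in (1 / τ)..x, w' u * v u)
  have h7 := norm_sub_le (w x * v x) (w (1 / τ) * v (1 / τ))
  rw [norm_mul (w x) (v x), norm_mul (w (1 / τ)) (v (1 / τ)), hvn, hvn, hwn x hx0,
    hwn _ h1τ, h4] at h7
  rw [h4] at hint
  have h8 : (2 : ℝ) / √τ = 2 * (1 / τ * √τ) := by rw [h5]; ring
  rw [h8]
  nlinarith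

private theorem Y2_K_bound {τ x : ℝ} (hτ : 0 < τ) (hx : 0 ≤ x) : ‖Y2_K τ x‖ ≤ 4 / √τ := by
  have hs : 0 < √τ := Real.sqrt_pos.2 hτ
  have h0 : ∀ y, 0 ≤ y → y ≤ 1 / τ → ‖Y2_K τ y‖ ≤ 2 / √τ := by
    intro y hy hy1
    refine (Y2_K_le τ hy).trans ?_
    have h1 : √y ≤ √(1 / τ) := Real.sqrt_le_sqrt hy1
    rw [Real.sqrt_div zero_le_one, Real.sqrt_one] at h1
    have h2 : (2 : ℝ) / √τ = 2 * (1 / √τ) := by ring
    rw [h2]
    linarith
  rcases le_total x (1 / τ) with h | h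
  · refine (h0 x hx h).trans ?_
    rw [div_le_div_iff_of_pos_right hs]
    norm_num
  · have h1 : Y2_K τ x = Y2_K τ (1 / τ) + ∫ u in (1 / τ)..x, Y2_k τ u :=
      (intervalIntegral.integral_add_adjacent_intervals (Y2_k_int τ 0 (1 / τ))
        (Y2_k_int τ (1 / τ) x)).symm
    rw [h1]
    have h2 := h0 (1 / τ) (by positivity) le_rfl
    have h3 := Y2_tail hτ h
    have h4 : (4 : ℝ) / √τ = 2 / √τ + 2 / √τ := by ring
    rw [h4]
    exact (norm_add_le _ _).trans (add_le_add h2 h3)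

/-- domination -/
private theorem Y2_dom {f : ℝ → ℂ} (hf : ContinuousOn f (Ioi 0)) {D R : ℝ} (hD : 0 ≤ D)
    (hR : 0 ≤ R) (h : ∀ u, 0 < u → u ≤ R → ‖f u‖ ≤ D * u ^ (-(1 / 2) : ℝ))
    (h0 : ∀ u, R < u → f u = 0) :
    IntegrableOn f (Ioi 0) ∧ ‖∫ u in Ioi (0 : ℝ), f u‖ ≤ D * (2 * √R) := by
  set g : ℝ → ℝ := (Ioc (0 : ℝ) R).indicator fun u => D * u ^ (-(1 / 2) : ℝ) with hg
  have hgi : IntegrableOn (fun u : ℝ => D * u ^ (-(1 / 2) : ℝ)) (Ioc 0 R) :=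
    ((intervalIntegrable_iff_integrableOn_Ioc_of_le hR).1
      (intervalIntegral.intervalIntegrable_rpow' (by norm_num))).const_mul D
  have hgI : Integrable g := (integrable_indicator_iff measurableSet_Ioc).2 hgi
  have hm : AEStronglyMeasurable f (volume.restrict (Ioi 0)) :=
    hf.aestronglyMeasurable measurableSet_Ioi
  have hb : ∀ᵐ u ∂(volume.restrict (Ioi (0 : ℝ))), ‖f u‖ ≤ g u := by
    refine (ae_restrict_iff' measurableSet_Ioi).2 (ae_of_all _ fun u hu => ?_)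
    by_cases hu1 : u ≤ R
    · rw [hg, indicator_of_mem (show u ∈ Ioc (0 : ℝ) R from ⟨hu, hu1⟩)]
      exact h u hu hu1
    · rw [h0 u (not_le.1 hu1), norm_zero, hg,
        indicator_of_notMem (show u ∉ Ioc (0 : ℝ) R from fun h2 => hu1 h2.2)]
  refine ⟨hgI.integrableOn.mono' hm hb, ?_⟩
  refine (norm_integral_le_of_norm_le hgI.integrableOn hb).trans (le_of_eq ?_)
  rw [hg, setIntegral_indicator measurableSet_Ioc, inter_eq_right.2 Ioc_subset_Ioi_self,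
    ← intervalIntegral.integral_of_le hR, intervalIntegral.integral_const_mul, Y2_rpow_int hR]

private theorem Y2_half {x : ℝ} (hx : 0 < x) : x ^ (-(1 / 2) : ℝ) = 1 / √x := by
  rw [Real.rpow_neg hx.le, ← Real.sqrt_eq_rpow, one_div]

private theorem Y2_ibp {W W' : ℝ → ℂ} {E R : ℝ} (hd : ∀ u, 0 < u → HasDerivAt W (W' u) u)
    (hW0 : W 0 = 0) (h0 : ∀ u, 0 < u → ‖W u‖ ≤ E * √u)
    (hR : ∀ u, R < u → W u = 0) (hint : IntegrableOn W' (Ioi 0)) :
    ∫ u in Ioi (0 : ℝ), W' u = 0 := by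
  have hc : ContinuousWithinAt W (Ici 0) 0 := by
    rw [← continuousWithinAt_Ioi_iff_Ici, ContinuousWithinAt, hW0]
    have h1 : Tendsto (fun u : ℝ => E * √u) (𝓝[>] 0) (𝓝 0) := by
      have h2 : Continuous (fun u : ℝ => E * √u) := by fun_prop
      have h3 := (h2.tendsto 0).mono_left (nhdsWithin_le_nhds (s := Ioi (0 : ℝ)))
      simpa using h3
    refine squeeze_zero_norm' ?_ h1
    filter_upwards [self_mem_nhdsWithin] with u hu
    exact h0 u hu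
  have ht : Tendsto W atTop (𝓝 0) := by
    refine tendsto_const_nhds.congr' ?_
    filter_upwards [eventually_gt_atTop R] with u hu
    exact (hR u hu).symm
  rw [integral_Ioi_of_hasDerivAt_of_tendsto hc (fun u hu => hd u hu) hint ht, hW0, sub_zero]

private theorem Y2_a0 {a : ℝ → ℂ} {ρ M : ℝ} (ha : Amp a ρ M) (t : ℝ) : ‖a t‖ ≤ M := by
  have h := ha.bound 0 (by norm_num) t
  rwa [iteratedDeriv_zero] at h

private theorem Y2_a1 {a : ℝ → ℂ} {ρ M : ℝ} (ha : Amp a ρ M) (t : ℝ) : ‖deriv a t‖ ≤ M := by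
  have h := ha.bound 1 (by norm_num) t
  rwa [iteratedDeriv_one] at h

private theorem Y2_M {a : ℝ → ℂ} {ρ M : ℝ} (ha : Amp a ρ M) : 0 ≤ M :=
  (norm_nonneg _).trans (Y2_a0 ha 0)

private theorem Y2_z0 {a : ℝ → ℂ} {ρ M : ℝ} (ha : Amp a ρ M) (hρ : 0 ≤ ρ) {t : ℝ} (ht : ρ < t) :
    a t = 0 := ha.supp t (by rwa [abs_of_nonneg (hρ.trans ht.le)])

private theorem Y2_z1 {a : ℝ → ℂ} {ρ M : ℝ} (ha : Amp a ρ M) (hρ : 0 ≤ ρ) {t : ℝ} (ht : ρ < t) :
    deriv a t = 0 := by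
  have h : a =ᶠ[𝓝 t] fun _ => 0 := by
    filter_upwards [Ioi_mem_nhds ht] with s hs
    exact Y2_z0 ha hρ hs
  rw [h.deriv_eq, deriv_const]

private theorem Y2_ad {a : ℝ → ℂ} {ρ M : ℝ} (ha : Amp a ρ M) (t : ℝ) :
    HasDerivAt a (deriv a t) t :=
  ((ha.smooth.differentiable (by simp)) t).hasDerivAt

private theorem Y2_adr {a : ℝ → ℂ} {ρ M : ℝ} (ha : Amp a ρ M) (r u : ℝ) :
    HasDerivAt (fun u => a (r + u)) (deriv a (r + u)) u :=
  (Y2_ad ha (r + u)).comp_const_add r u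

private theorem Y2_dc {a : ℝ → ℂ} {ρ M : ℝ} (ha : Amp a ρ M) : Continuous (deriv a) :=
  ha.smooth.continuous_deriv (by simp)

private theorem Y2_k_cont (τ : ℝ) : ContinuousOn (Y2_k τ) (Ioi 0) := by
  unfold Y2_k
  refine ContinuousOn.mul (Y2_ec τ).continuousOn ?_
  refine Complex.continuous_ofReal.comp_continuousOn ?_
  exact ContinuousOn.rpow_const continuousOn_id fun u hu => Or.inl (ne_of_gt hu)

private theorem Y2_K_cont (τ : ℝ) : ContinuousOn (Y2_K τ) (Ioi 0) := fun _ hu =>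
  (Y2_K_deriv τ hu).continuousAt.continuousWithinAt

private theorem Y2_osc_deriv {a : ℝ → ℂ} {ρ M : ℝ} (ha : Amp a ρ M) (τ t : ℝ) :
    deriv (osc a τ) t =
      (-(Complex.I * τ) * Complex.exp (-(Complex.I * τ * t)) * a t +
        Complex.exp (-(Complex.I * τ * t)) * deriv a t).re := by
  have h := (Y2_ed τ t).mul (Y2_ad ha t)
  exact (Complex.reCLM.hasFDerivAt.comp_hasDerivAt t h).deriv
private noncomputable def Y2_B (r : ℝ) (u : ℝ) : ℝ := (2 * r + u) ^ (-(1 / 2) : ℝ)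

private noncomputable def Y2_B' (r : ℝ) (u : ℝ) : ℝ := -(1 / 2) * (2 * r + u) ^ (-(3 / 2) : ℝ)

private theorem Y2_B_deriv {r : ℝ} (hr : 0 ≤ r) {u : ℝ} (hu : 0 < u) :
    HasDerivAt (Y2_B r) (Y2_B' r u) u := by
  have hpos : 0 < 2 * r + u := by linarith
  have h2 : HasDerivAt (fun u : ℝ => 2 * r + u) 1 u := (hasDerivAt_id u).const_add (2 * r)
  have h6 := h2.rpow_const (p := (-(1 / 2) : ℝ)) (Or.inl hpos.ne')
  have e : (-(1 / 2) : ℝ) - 1 = -(3 / 2) := by norm_num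
  rw [e, one_mul] at h6
  exact h6

private theorem Y2_B_cont {r : ℝ} (hr : 0 ≤ r) : ContinuousOn (Y2_B r) (Ioi 0) := fun _ hu =>
  (Y2_B_deriv hr hu).continuousAt.continuousWithinAt

private theorem Y2_B'_cont {r : ℝ} (hr : 0 ≤ r) : ContinuousOn (Y2_B' r) (Ioi 0) := by
  have h : ∀ p : ℝ, ContinuousOn (fun u : ℝ => (2 * r + u) ^ p) (Ioi 0) := by
    intro p
    refine ContinuousOn.rpow_const (by fun_prop) fun u hu => Or.inl ?_
    have : 0 < u := hu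
    linarith
  unfold Y2_B'
  exact continuousOn_const.mul (h _)

private theorem Y2_B_nonneg {r : ℝ} (hr : 0 ≤ r) {u : ℝ} (hu : 0 < u) : 0 ≤ Y2_B r u :=
  Real.rpow_nonneg (by linarith) _

private theorem Y2_B_le {r0 r : ℝ} (hr0 : 0 < r0) (hr : r0 ≤ r) {u : ℝ} (hu : 0 < u) :
    Y2_B r u ≤ r0 ^ (-(1 / 2) : ℝ) :=
  Real.rpow_le_rpow_of_nonpos hr0 (by linarith) (by norm_num)

private theorem Y2_B'_le {r0 r : ℝ} (hr0 : 0 < r0) (hr : r0 ≤ r) {u : ℝ} (hu : 0 < u) :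
    |Y2_B' r u| ≤ r0 ^ (-(3 / 2) : ℝ) := by
  have h1 : (2 * r + u) ^ (-(3 / 2) : ℝ) ≤ r0 ^ (-(3 / 2) : ℝ) :=
    Real.rpow_le_rpow_of_nonpos hr0 (by linarith) (by norm_num)
  have h2 : 0 ≤ (2 * r + u) ^ (-(3 / 2) : ℝ) := Real.rpow_nonneg (by linarith) _
  rw [Y2_B', abs_mul, abs_of_nonneg h2]
  norm_num
  linarith

/-- the leading part -/
private theorem Y2_ck {r0 : ℝ} (hr0 : 0 < r0) {a : ℝ → ℂ} {ρ M : ℝ} (ha : Amp a ρ M)
    (hρ : 0 ≤ ρ) {r : ℝ} (hr : r0 ≤ r) {τ : ℝ} (hτ : 0 < τ) :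
    IntegrableOn (fun u => a (r + u) * ((Y2_B r u : ℝ) : ℂ) * Y2_k τ u) (Ioi 0) ∧
    ‖∫ u in Ioi (0 : ℝ), a (r + u) * ((Y2_B r u : ℝ) : ℂ) * Y2_k τ u‖ ≤
      M * (r0 ^ (-(1 / 2) : ℝ) + r0 ^ (-(3 / 2) : ℝ)) * (4 / √τ) * (2 * (ρ + 1)) := by
  have hM := Y2_M ha
  have hr' : 0 ≤ r := hr0.le.trans hr
  have hS0 : 0 ≤ r0 ^ (-(1 / 2) : ℝ) := Real.rpow_nonneg hr0.le _
  have hS1 : 0 ≤ r0 ^ (-(3 / 2) : ℝ) := Real.rpow_nonneg hr0.le _
  have hsτ : 0 < √τ := Real.sqrt_pos.2 hτ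
  set S : ℝ := r0 ^ (-(1 / 2) : ℝ) + r0 ^ (-(3 / 2) : ℝ) with hS
  have hS' : 0 ≤ S := add_nonneg hS0 hS1
  set R : ℝ := max (ρ - r) 0 with hRdef
  have hR0 : 0 ≤ R := le_max_right _ _
  have hRA : R ≤ ρ + 1 := max_le (by linarith) (by linarith)
  have hRz : ∀ u, R < u → ρ < r + u := by
    intro u hu
    have := (max_lt_iff.1 hu).1
    linarith
  set c : ℝ → ℂ := fun u => a (r + u) * ((Y2_B r u : ℝ) : ℂ) with hc
  set c' : ℝ → ℂ := fun u => deriv a (r + u) * ((Y2_B r u : ℝ) : ℂ) +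
    a (r + u) * ((Y2_B' r u : ℝ) : ℂ) with hc'
  have hcd : ∀ u, 0 < u → HasDerivAt c (c' u) u := fun u hu =>
    (Y2_adr ha r u).mul (Y2_B_deriv hr' hu).ofReal_comp
  have hcc : ContinuousOn c (Ioi 0) := fun u hu =>
    (hcd u hu).continuousAt.continuousWithinAt
  have hc'c : ContinuousOn c' (Ioi 0) := by
    refine ContinuousOn.add (ContinuousOn.mul ?_ ?_) (ContinuousOn.mul ?_ ?_)
    · exact ((Y2_dc ha).comp (continuous_const.add continuous_id)).continuousOn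
    · exact Complex.continuous_ofReal.comp_continuousOn (Y2_B_cont hr')
    · exact (ha.smooth.continuous.comp (continuous_const.add continuous_id)).continuousOn
    · exact Complex.continuous_ofReal.comp_continuousOn (Y2_B'_cont hr')
  have hcz : ∀ u, R < u → c u = 0 := fun u hu => by
    show a (r + u) * _ = 0
    rw [Y2_z0 ha hρ (hRz u hu), zero_mul]
  have hc'z : ∀ u, R < u → c' u = 0 := fun u hu => by
    show deriv a (r + u) * _ + a (r + u) * _ = 0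
    rw [Y2_z0 ha hρ (hRz u hu), Y2_z1 ha hρ (hRz u hu), zero_mul, zero_mul, add_zero]
  have hcb : ∀ u, 0 < u → ‖c u‖ ≤ M * S := by
    intro u hu
    show ‖a (r + u) * _‖ ≤ _
    rw [norm_mul, Complex.norm_real, Real.norm_of_nonneg (Y2_B_nonneg hr' hu)]
    exact mul_le_mul (Y2_a0 ha _) ((Y2_B_le hr0 hr hu).trans (by rw [hS]; linarith))
      (Y2_B_nonneg hr' hu) hM
  have hc'b : ∀ u, 0 < u → ‖c' u‖ ≤ M * S := by
    intro u hu
    have h1 : ‖deriv a (r + u) * ((Y2_B r u : ℝ) : ℂ)‖ ≤ M * r0 ^ (-(1 / 2) : ℝ) := by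
      rw [norm_mul, Complex.norm_real, Real.norm_of_nonneg (Y2_B_nonneg hr' hu)]
      exact mul_le_mul (Y2_a1 ha _) (Y2_B_le hr0 hr hu) (Y2_B_nonneg hr' hu) hM
    have h2 : ‖a (r + u) * ((Y2_B' r u : ℝ) : ℂ)‖ ≤ M * r0 ^ (-(3 / 2) : ℝ) := by
      rw [norm_mul, Complex.norm_real, Real.norm_eq_abs]
      exact mul_le_mul (Y2_a0 ha _) (Y2_B'_le hr0 hr hu) (abs_nonneg _) hM
    refine (norm_add_le _ _).trans ((add_le_add h1 h2).trans (le_of_eq ?_))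
    rw [hS]
    ring
  have hone : ∀ u, 0 < u → u ≤ R → 1 ≤ √R * u ^ (-(1 / 2) : ℝ) := by
    intro u hu hu1
    rw [Y2_half hu, mul_one_div, le_div_iff₀ (Real.sqrt_pos.2 hu), one_mul]
    exact Real.sqrt_le_sqrt hu1
  have hdom1 := Y2_dom (f := fun u => c' u * Y2_K τ u) (hc'c.mul (Y2_K_cont τ))
    (D := M * S * (4 / √τ) * √R) (R := R) (by positivity) hR0
    (fun u hu hu1 => by
      rw [norm_mul]
      have h1 : ‖c' u‖ * ‖Y2_K τ u‖ ≤ M * S * (4 / √τ) :=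
        mul_le_mul (hc'b u hu) (Y2_K_bound hτ hu.le) (norm_nonneg _) (by positivity)
      refine h1.trans ?_
      have h2 : 0 ≤ M * S * (4 / √τ) := by positivity
      calc M * S * (4 / √τ) = M * S * (4 / √τ) * 1 := (mul_one _).symm
        _ ≤ M * S * (4 / √τ) * (√R * u ^ (-(1 / 2) : ℝ)) :=
          mul_le_mul_of_nonneg_left (hone u hu hu1) h2
        _ = _ := by ring)
    (fun u hu => by rw [hc'z u hu, zero_mul])
  have hdom2 := Y2_dom (f := fun u => c u * Y2_k τ u) (hcc.mul (Y2_k_cont τ))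
    (D := M * S) (R := R) (by positivity) hR0
    (fun u hu _ => by
      rw [norm_mul, Y2_k_norm τ hu.le]
      exact mul_le_mul_of_nonneg_right (hcb u hu) (Real.rpow_nonneg hu.le _))
    (fun u hu => by rw [hcz u hu, zero_mul])
  have hK0 : Y2_K τ 0 = 0 := by
    rw [Y2_K, intervalIntegral.integral_same]
  have hibp := Y2_ibp (W := fun u => c u * Y2_K τ u)
    (W' := fun u => c' u * Y2_K τ u + c u * Y2_k τ u)
    (E := M * S * 2) (R := R)
    (fun u hu => (hcd u hu).mul (Y2_K_deriv τ hu))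
    (by show c 0 * Y2_K τ 0 = 0; rw [hK0, mul_zero])
    (fun u hu => by
      rw [norm_mul]
      refine (mul_le_mul (hcb u hu) (Y2_K_le τ hu.le) (norm_nonneg _) (by positivity)).trans
        (le_of_eq ?_)
      ring)
    (fun u hu => by show c u * _ = 0; rw [hcz u hu, zero_mul])
    (hdom1.1.add hdom2.1)
  rw [integral_add hdom1.1 hdom2.1] at hibp
  refine ⟨hdom2.1, ?_⟩
  have e : ∫ u in Ioi (0 : ℝ), c u * Y2_k τ u = -∫ u in Ioi (0 : ℝ), c' u * Y2_K τ u :=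
    (neg_eq_of_add_eq_zero_right hibp).symm
  show ‖∫ u in Ioi (0 : ℝ), c u * Y2_k τ u‖ ≤ _
  rw [e, norm_neg]
  refine hdom1.2.trans ?_
  have h3 : M * S * (4 / √τ) * √R * (2 * √R) = M * S * (4 / √τ) * (2 * R) := by
    have : √R * √R = R := Real.mul_self_sqrt hR0
    calc M * S * (4 / √τ) * √R * (2 * √R) = M * S * (4 / √τ) * (2 * (√R * √R)) := by ring
      _ = _ := by rw [this]
  rw [h3]
  refine mul_le_mul_of_nonneg_left ?_ (by positivity)
  linarith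

/-- the part with the derivative of the amplitude -/
private theorem Y2_dk {r0 : ℝ} (hr0 : 0 < r0) {a : ℝ → ℂ} {ρ M : ℝ} (ha : Amp a ρ M)
    (hρ : 0 ≤ ρ) {r : ℝ} (hr : r0 ≤ r) {τ : ℝ} :
    IntegrableOn (fun u => deriv a (r + u) * ((Y2_B r u : ℝ) : ℂ) * Y2_k τ u) (Ioi 0) ∧
    ‖∫ u in Ioi (0 : ℝ), deriv a (r + u) * ((Y2_B r u : ℝ) : ℂ) * Y2_k τ u‖ ≤
      M * (r0 ^ (-(1 / 2) : ℝ) + r0 ^ (-(3 / 2) : ℝ)) * (2 * (ρ + 1)) := by
  have hM := Y2_M ha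
  have hr' : 0 ≤ r := hr0.le.trans hr
  have hS0 : 0 ≤ r0 ^ (-(1 / 2) : ℝ) := Real.rpow_nonneg hr0.le _
  have hS1 : 0 ≤ r0 ^ (-(3 / 2) : ℝ) := Real.rpow_nonneg hr0.le _
  set S : ℝ := r0 ^ (-(1 / 2) : ℝ) + r0 ^ (-(3 / 2) : ℝ) with hS
  have hS' : 0 ≤ S := add_nonneg hS0 hS1
  set R : ℝ := max (ρ - r) 0 with hRdef
  have hR0 : 0 ≤ R := le_max_right _ _
  have hRA : R ≤ ρ + 1 := max_le (by linarith) (by linarith)
  have hRz : ∀ u, R < u → ρ < r + u := by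
    intro u hu
    have := (max_lt_iff.1 hu).1
    linarith
  have hdom := Y2_dom (f := fun u => deriv a (r + u) * ((Y2_B r u : ℝ) : ℂ) * Y2_k τ u)
    ((((Y2_dc ha).comp (continuous_const.add continuous_id)).continuousOn.mul
      (Complex.continuous_ofReal.comp_continuousOn (Y2_B_cont hr'))).mul (Y2_k_cont τ))
    (D := M * S) (R := R) (by positivity) hR0
    (fun u hu _ => by
      rw [norm_mul, norm_mul, Y2_k_norm τ hu.le, Complex.norm_real,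
        Real.norm_of_nonneg (Y2_B_nonneg hr' hu)]
      refine mul_le_mul_of_nonneg_right ?_ (Real.rpow_nonneg hu.le _)
      exact mul_le_mul (Y2_a1 ha _) ((Y2_B_le hr0 hr hu).trans (by rw [hS]; linarith))
        (Y2_B_nonneg hr' hu) hM)
    (fun u hu => by rw [Y2_z1 ha hρ (hRz u hu), zero_mul, zero_mul])
  refine ⟨hdom.1, hdom.2.trans ?_⟩
  refine mul_le_mul_of_nonneg_left ?_ (by positivity)
  have : √R ≤ ρ + 1 := by
    rw [Real.sqrt_le_left (by linarith)]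
    nlinarith
  linarith

private theorem Y2_main {r0 : ℝ} (hr0 : 0 < r0) {a : ℝ → ℂ} {ρ M : ℝ} (ha : Amp a ρ M)
    (hρ : 0 ≤ ρ) {r : ℝ} (hr : r0 ≤ r) {τ : ℝ} (hτ : 1 ≤ τ) :
    IntegrableOn (fun u => ((((u * (2 * r + u)) ^ (-(1 / 2) : ℝ) : ℝ)) : ℂ) *
      (-(Complex.I * τ) * Complex.exp (-(Complex.I * τ * ((r + u : ℝ) : ℂ))) * a (r + u) +
        Complex.exp (-(Complex.I * τ * ((r + u : ℝ) : ℂ))) * deriv a (r + u))) (Ioi 0) ∧
    ‖∫ u in Ioi (0 : ℝ), ((((u * (2 * r + u)) ^ (-(1 / 2) : ℝ) : ℝ)) : ℂ) *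
      (-(Complex.I * τ) * Complex.exp (-(Complex.I * τ * ((r + u : ℝ) : ℂ))) * a (r + u) +
        Complex.exp (-(Complex.I * τ * ((r + u : ℝ) : ℂ))) * deriv a (r + u))‖ ≤
      10 * (r0 ^ (-(1 / 2) : ℝ) + r0 ^ (-(3 / 2) : ℝ)) * M * (ρ + 1) * √τ := by
  have hM := Y2_M ha
  have hτ0 : 0 < τ := by linarith
  have hS0 : 0 ≤ r0 ^ (-(1 / 2) : ℝ) := Real.rpow_nonneg hr0.le _
  have hS1 : 0 ≤ r0 ^ (-(3 / 2) : ℝ) := Real.rpow_nonneg hr0.le _
  obtain ⟨i1, b1⟩ := Y2_ck hr0 ha hρ hr hτ0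
  obtain ⟨i2, b2⟩ := Y2_dk (τ := τ) hr0 ha hρ hr
  have hr' : 0 ≤ r := hr0.le.trans hr
  set S : ℝ := r0 ^ (-(1 / 2) : ℝ) + r0 ^ (-(3 / 2) : ℝ) with hS
  have hS' : 0 ≤ S := add_nonneg hS0 hS1
  have hG : ∀ u, 0 < u → ((((u * (2 * r + u)) ^ (-(1 / 2) : ℝ) : ℝ)) : ℂ) *
      (-(Complex.I * τ) * Complex.exp (-(Complex.I * τ * ((r + u : ℝ) : ℂ))) * a (r + u) +
        Complex.exp (-(Complex.I * τ * ((r + u : ℝ) : ℂ))) * deriv a (r + u)) =
      (-(Complex.I * τ) * Complex.exp (-(Complex.I * τ * r))) *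
        (a (r + u) * ((Y2_B r u : ℝ) : ℂ) * Y2_k τ u) +
      Complex.exp (-(Complex.I * τ * r)) *
        (deriv a (r + u) * ((Y2_B r u : ℝ) : ℂ) * Y2_k τ u) := by
    intro u hu
    have e1 : Complex.exp (-(Complex.I * τ * ((r + u : ℝ) : ℂ))) =
        Complex.exp (-(Complex.I * τ * r)) * Complex.exp (-(Complex.I * τ * u)) := by
      rw [← Complex.exp_add]
      congr 1
      push_cast
      ring
    have hpos : 0 ≤ 2 * r + u := by linarith
    rw [e1, Real.mul_rpow hu.le hpos, Y2_k, Y2_B]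
    push_cast
    ring
  have hI : IntegrableOn (fun u => (-(Complex.I * τ) * Complex.exp (-(Complex.I * τ * r))) *
        (a (r + u) * ((Y2_B r u : ℝ) : ℂ) * Y2_k τ u) +
      Complex.exp (-(Complex.I * τ * r)) *
        (deriv a (r + u) * ((Y2_B r u : ℝ) : ℂ) * Y2_k τ u)) (Ioi 0) :=
    (i1.const_mul _).add (i2.const_mul _)
  refine ⟨hI.congr_fun (fun u hu => (hG u hu).symm) measurableSet_Ioi, ?_⟩
  rw [setIntegral_congr_fun measurableSet_Ioi (fun u hu => hG u hu),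
    integral_add (i1.const_mul _) (i2.const_mul _), integral_const_mul, integral_const_mul]
  refine (norm_add_le _ _).trans ?_
  rw [norm_mul, norm_mul, norm_mul, Y2_en, mul_one, one_mul, norm_neg, norm_mul, Complex.norm_I,
    one_mul, Complex.norm_real, Real.norm_of_nonneg hτ0.le]
  have hs : 0 < √τ := Real.sqrt_pos.2 hτ0
  have hs1 : 1 ≤ √τ := by
    rw [Real.one_le_sqrt]
    exact hτ
  have h1 : τ * (M * S * (4 / √τ) * (2 * (ρ + 1))) = 8 * S * M * (ρ + 1) * √τ := by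
    have h2 : τ / √τ = √τ := Real.div_sqrt
    calc τ * (M * S * (4 / √τ) * (2 * (ρ + 1))) = 8 * S * M * (ρ + 1) * (τ / √τ) := by ring
      _ = _ := by rw [h2]
  have h3 : M * S * (2 * (ρ + 1)) ≤ 2 * S * M * (ρ + 1) * √τ := by
    have h4 : 0 ≤ 2 * S * M * (ρ + 1) := by positivity
    calc M * S * (2 * (ρ + 1)) = 2 * S * M * (ρ + 1) * 1 := by ring
      _ ≤ _ := mul_le_mul_of_nonneg_left hs1 h4
  have h5 := mul_le_mul_of_nonneg_left b1 hτ0.le
  rw [h1] at h5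
  calc _ ≤ 8 * S * M * (ρ + 1) * √τ + 2 * S * M * (ρ + 1) * √τ := add_le_add h5 (b2.trans h3)
    _ = _ := by ring

theorem Ab_sharp {r0 : ℝ} (hr0 : 0 < r0) : ∃ C : ℝ, 0 ≤ C ∧ ∀ (a : ℝ → ℂ) (ρ M τ r : ℝ),
    0 ≤ ρ → Amp a ρ M → 1 ≤ τ → r0 ≤ r →
    |Ab 0 (osc a τ) (r ^ 2)| ≤ C * M * (ρ + 1) * √τ := by
  have hS0 : 0 ≤ r0 ^ (-(1 / 2) : ℝ) := Real.rpow_nonneg hr0.le _
  have hS1 : 0 ≤ r0 ^ (-(3 / 2) : ℝ) := Real.rpow_nonneg hr0.le _
  set cG : ℝ := 1 / (√Real.pi * Real.Gamma (((0 : ℕ) : ℝ) + 1 / 2)) with hcG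
  have hcG0 : 0 ≤ cG := by
    have : 0 < Real.Gamma (((0 : ℕ) : ℝ) + 1 / 2) := Real.Gamma_pos_of_pos (by positivity)
    positivity
  refine ⟨cG * (10 * (r0 ^ (-(1 / 2) : ℝ) + r0 ^ (-(3 / 2) : ℝ))), by positivity,
    fun a ρ M τ r hρ ha hτ hr => ?_⟩
  have hr' : 0 ≤ r := hr0.le.trans hr
  have hT : Tl (osc a τ) ρ := by
    refine ⟨osc_smooth ha τ, fun t ht => ?_⟩
    unfold osc
    rw [Y2_z0 ha hρ ht, mul_zero, Complex.zero_re]
  obtain ⟨hint, hb⟩ := Y2_main hr0 ha hρ hr hτ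
  have e1 : ∫ t in Ioi r, deriv (osc a τ) t * (t ^ 2 - r ^ 2) ^ (((0 : ℕ) : ℝ) - 1 / 2) =
      (∫ u in Ioi (0 : ℝ), ((((u * (2 * r + u)) ^ (-(1 / 2) : ℝ) : ℝ)) : ℂ) *
      (-(Complex.I * τ) * Complex.exp (-(Complex.I * τ * ((r + u : ℝ) : ℂ))) * a (r + u) +
        Complex.exp (-(Complex.I * τ * ((r + u : ℝ) : ℂ))) * deriv a (r + u))).re := by
    have e2 : (∫ u in Ioi (0 : ℝ), ((((u * (2 * r + u)) ^ (-(1 / 2) : ℝ) : ℝ)) : ℂ) *
      (-(Complex.I * τ) * Complex.exp (-(Complex.I * τ * ((r + u : ℝ) : ℂ))) * a (r + u) +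
        Complex.exp (-(Complex.I * τ * ((r + u : ℝ) : ℂ))) * deriv a (r + u))).re =
        ∫ u in Ioi (0 : ℝ), (((((u * (2 * r + u)) ^ (-(1 / 2) : ℝ) : ℝ)) : ℂ) *
      (-(Complex.I * τ) * Complex.exp (-(Complex.I * τ * ((r + u : ℝ) : ℂ))) * a (r + u) +
        Complex.exp (-(Complex.I * τ * ((r + u : ℝ) : ℂ))) * deriv a (r + u))).re :=
      (integral_re hint).symm
    rw [e2, ← integral_indicator measurableSet_Ioi, ← integral_indicator measurableSet_Ioi,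
      ← integral_add_left_eq_self _ r]
    congr 1
    ext u
    by_cases hu : 0 < u
    · rw [indicator_of_mem (show r + u ∈ Ioi r from by simpa using hu),
        indicator_of_mem (show u ∈ Ioi (0 : ℝ) from hu), Y2_osc_deriv ha τ (r + u),
        Complex.re_ofReal_mul, mul_comm]
      congr 2
      · ring
      · push_cast; ring
    · rw [indicator_of_notMem (show r + u ∉ Ioi r from by simpa using hu),
        indicator_of_notMem (show u ∉ Ioi (0 : ℝ) from hu)]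
  rw [Ab_eq hρ hT 0 (sq_nonneg r), abs_neg, abs_mul, ← hcG, abs_of_nonneg hcG0,
    Real.sqrt_sq hr', e1]
  refine (mul_le_mul_of_nonneg_left ((Complex.abs_re_le_norm _).trans hb) hcG0).trans
    (le_of_eq ?_)
  ring

end BE73
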