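import Pool.Agent.LibBE73.Defs
import Pool.Agent.LibBR70.AB5
import Pool.Agent.LibBR70.AB8

/-! Row X1: the transform `Ab N` of a function whose derivative oscillates with frequency `τ` is
`O(τ^(-(N-1)))`. Only real analysis.
Plan. For `σ ≥ 0`, `b` smooth on the line, `b t = 0` for `t > ρ`, and a real exponent `α ≥ 1/2` put
`I(b, α) = ∫ t in Ioi (√σ), exp(-(I τ t)) * b t * ((t^2 - σ)^α : ℝ)` (an integral over `√σ < t ≤ ρ`).
(i) `‖I(b, α)‖ ≤ S (ρ+1)^(2α) ρ ≤ S (ρ+1)^(2α+1)` if `‖b t‖ ≤ S` for `t ≥ 0` (trivial; zero if `√σ ≥ ρ`).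
(ii) if `α ≥ 3/2`: integrate by parts with the primitive `exp(-(I τ t)) / (-(I τ))`: no boundary terms
(`(t^2 - σ)^α = 0` at `t = √σ`, `b = 0` beyond `ρ`, continuity at `ρ`), and the derivative of
`b t (t^2 - σ)^α` is `b' t (t^2 - σ)^α + 2 α t b t (t^2 - σ)^(α - 1)` (valid for `t > √σ`, and one-sided
continuous at `√σ`). So `‖I(b, α)‖ ≤ τ^(-1) (‖I(b', α)‖ + 2 α ‖I(t b, α - 1)‖)`.
(iii) induction on `n` with `α ≥ n + 1/2`: if `‖iteratedDeriv k b t‖ ≤ S` for `k ≤ n`, `t ≥ 0` then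
`‖I(b, α)‖ ≤ C S (ρ+1)^(2 α + 1) τ^(-n)`; the derivatives of `t b t` up to the order `n - 1` are at most
`(ρ + n) S ≤ (n + 1)(ρ + 1) S` on `0 ≤ t` (they vanish for `t > ρ`; `iteratedDeriv_succ`, Leibniz for the product with
`t`, or an induction), so the power of `ρ + 1` is `2 (α - 1) + 1 + 1 ≤ 2 α + 1`.
(iv) `Ab_eq`: `Ab N q σ = -(1/(√π Γ(N + 1/2)) ∫ t in Ioi (√σ), deriv q t * (t^2 - σ)^(N - 1/2))` and the integral is the real
part of `I(b, N - 1/2)`, `n = N - 1`, `2 α + 1 = 2 N`. -/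

open MeasureTheory Set Filter Topology
open scoped ContDiff

namespace BE73

open BGS BR

private theorem X1_mul (b : ℝ → ℂ) (hb : ContDiff ℝ ∞ b) (k : ℕ) :
    iteratedDeriv k (fun t : ℝ => (t : ℂ) * b t) =
      fun t : ℝ => (t : ℂ) * iteratedDeriv k b t + (k : ℂ) * iteratedDeriv (k - 1) b t := by
  have hd : ∀ (j : ℕ) (t : ℝ), HasDerivAt (iteratedDeriv j b) (iteratedDeriv (j + 1) b t) t := by
    intro j t
    rw [iteratedDeriv_succ]
    have h1 : ContDiff ℝ ∞ (iteratedDeriv j b) := by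
      rw [iteratedDeriv_eq_iterate]
      exact hb.iterate_deriv j
    exact (h1.differentiable (by simp) t).hasDerivAt
  have hid : ∀ t : ℝ, HasDerivAt (fun t : ℝ => (t : ℂ)) 1 t := fun t =>
    (hasDerivAt_id t).ofReal_comp
  induction k with
  | zero =>
    funext t
    simp
  | succ k ih =>
    rw [iteratedDeriv_succ, ih]
    funext t
    rcases k with _ | k
    · have h1 : HasDerivAt (fun t : ℝ => (t : ℂ) * iteratedDeriv 0 b t +
          ((0 : ℕ) : ℂ) * iteratedDeriv (0 - 1) b t)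
          (1 * iteratedDeriv 0 b t + (t : ℂ) * iteratedDeriv (0 + 1) b t + ((0 : ℕ) : ℂ) *
            iteratedDeriv (0 + 1) b t) t :=
        ((hid t).mul (hd 0 t)).add ((hd 0 t).const_mul _)
      rw [h1.deriv]
      simp
      ring
    · have h1 : HasDerivAt (fun t : ℝ => (t : ℂ) * iteratedDeriv (k + 1) b t +
          ((k + 1 : ℕ) : ℂ) * iteratedDeriv (k + 1 - 1) b t)
          (1 * iteratedDeriv (k + 1) b t + (t : ℂ) * iteratedDeriv (k + 1 + 1) b t +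
            ((k + 1 : ℕ) : ℂ) * iteratedDeriv (k + 1) b t) t := by
        have h2 := ((hid t).mul (hd (k + 1) t)).add ((hd k t).const_mul ((k + 1 : ℕ) : ℂ))
        exact h2
      rw [h1.deriv]
      push_cast
      ring_nf

private theorem X1_zero {b : ℝ → ℂ} {ρ : ℝ} (h : ∀ t, ρ < t → b t = 0) (k : ℕ) :
    ∀ t, ρ < t → iteratedDeriv k b t = 0 := by
  induction k with
  | zero => intro t ht; rw [iteratedDeriv_zero]; exact h t ht
  | succ k ih =>
    intro t ht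
    rw [iteratedDeriv_succ]
    have h1 : iteratedDeriv k b =ᶠ[𝓝 t] fun _ => 0 := by
      filter_upwards [Ioi_mem_nhds ht] with x hx
      exact ih x hx
    rw [h1.deriv_eq, deriv_const]

private theorem X1_Sm_deriv {n : ℕ} {b : ℝ → ℂ} {ρ S : ℝ} (h : Sm (n + 1) b ρ S) :
    Sm n (deriv b) ρ S where
  smooth := ((contDiff_infty_iff_deriv).1 h.smooth).2
  supp := fun t ht => by
    have := X1_zero h.supp 1 t ht
    rwa [iteratedDeriv_one] at this
  bound := fun k hk t ht => by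
    have := h.bound (k + 1) (by omega) t ht
    rwa [iteratedDeriv_succ'] at this

private theorem X1_Sm_mul {n : ℕ} {b : ℝ → ℂ} {ρ S : ℝ} (hρ : 0 ≤ ρ) (h : Sm (n + 1) b ρ S) :
    Sm n (fun t : ℝ => (t : ℂ) * b t) ρ (((n : ℝ) + 1) * (ρ + 1) * S) where
  smooth := Complex.ofRealCLM.contDiff.mul h.smooth
  supp := fun t ht => by rw [h.supp t ht, mul_zero]
  bound := fun k hk t ht => by
    have hS : 0 ≤ S := (norm_nonneg _).trans (h.bound 0 (by omega) 0 le_rfl)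
    rw [X1_mul b h.smooth k]
    rcases le_or_gt t ρ with h1 | h1
    · have h2 : ‖(t : ℂ) * iteratedDeriv k b t‖ ≤ ρ * S := by
        rw [norm_mul, Complex.norm_real, Real.norm_of_nonneg ht]
        exact mul_le_mul h1 (h.bound k (by omega) t ht) (norm_nonneg _) hρ
      have h3 : ‖(k : ℂ) * iteratedDeriv (k - 1) b t‖ ≤ n * S := by
        rw [norm_mul, Complex.norm_natCast]
        exact mul_le_mul (by exact_mod_cast hk) (h.bound (k - 1) (by omega) t ht) (norm_nonneg _)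
          (Nat.cast_nonneg n)
      refine (norm_add_le _ _).trans ((add_le_add h2 h3).trans ?_)
      have h4 : (0 : ℝ) ≤ n := Nat.cast_nonneg n
      nlinarith [mul_nonneg h4 hρ, mul_nonneg (mul_nonneg h4 hρ) hS]
    · show ‖(t : ℂ) * iteratedDeriv k b t + (k : ℂ) * iteratedDeriv (k - 1) b t‖ ≤ _
      rw [X1_zero h.supp k t h1, X1_zero h.supp (k - 1) t h1, mul_zero, mul_zero, add_zero,
        norm_zero]
      positivity

/-- the oscillating integral. -/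
private noncomputable def X1_I (b : ℝ → ℂ) (α τ σ ρ : ℝ) : ℂ :=
  ∫ t in (√σ)..ρ, Complex.exp (-(Complex.I * τ * t)) * (b t * (((t ^ 2 - σ) ^ α : ℝ) : ℂ))

private theorem X1_norm (τ u : ℝ) : ‖Complex.exp (-(Complex.I * τ * u))‖ = 1 := by
  have h : -(Complex.I * τ * u) = ((-(τ * u) : ℝ) : ℂ) * Complex.I := by
    push_cast
    ring
  rw [h, Complex.norm_exp_ofReal_mul_I]

private theorem X1_exp (τ : ℝ) : Continuous fun u : ℝ => Complex.exp (-(Complex.I * τ * u)) := by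
  fun_prop

private theorem X1_exp_deriv {τ : ℝ} (hτ : τ ≠ 0) (u : ℝ) :
    HasDerivAt (fun u : ℝ => Complex.exp (-(Complex.I * τ * u)) / (-(Complex.I * τ)))
      (Complex.exp (-(Complex.I * τ * u))) u := by
  have h1 : HasDerivAt (fun u : ℝ => -(Complex.I * τ * (u : ℂ))) (-(Complex.I * τ)) u := by
    have h2 : HasDerivAt (fun u : ℝ => (u : ℂ)) 1 u := (hasDerivAt_id u).ofReal_comp
    have h3 := (h2.const_mul (Complex.I * τ)).neg
    rw [mul_one] at h3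
    exact h3
  have h4 := h1.cexp.div_const (-(Complex.I * τ : ℂ))
  have h5 : (-(Complex.I * τ) : ℂ) ≠ 0 := by
    simp [hτ]
  rw [mul_div_cancel_right₀ _ h5] at h4
  exact h4

private theorem X1_P (α σ : ℝ) (hα : 0 ≤ α) :
    Continuous fun t : ℝ => (((t ^ 2 - σ) ^ α : ℝ) : ℂ) := by
  refine Complex.continuous_ofReal.comp ?_
  refine Continuous.rpow_const (by fun_prop) fun x => Or.inr hα

private theorem X1_P_deriv {α : ℝ} (hα : 1 ≤ α) (σ t : ℝ) :
    HasDerivAt (fun t : ℝ => (((t ^ 2 - σ) ^ α : ℝ) : ℂ))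
      ((2 * α * (t * (((t ^ 2 - σ) ^ (α - 1) : ℝ) : ℂ)) : ℂ)) t := by
  have h1 : HasDerivAt (fun t : ℝ => t ^ 2 - σ) (2 * t) t := by
    have := (hasDerivAt_pow 2 t).sub_const σ
    simpa using this
  have h2 := (Real.hasDerivAt_rpow_const (x := t ^ 2 - σ) (p := α) (Or.inr hα)).comp t h1
  have h3 := h2.ofReal_comp
  refine h3.congr_deriv ?_
  push_cast
  ring

private theorem X1_base {α : ℝ} (hα : 1 / 2 ≤ α) {b : ℝ → ℂ} {ρ S τ σ : ℝ} (hρ : 0 ≤ ρ)
    (h : Sm 0 b ρ S) (hσ : 0 ≤ σ) (hs : √σ ≤ ρ) :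
    ‖X1_I b α τ σ ρ‖ ≤ 1 * S * (ρ + 1) ^ (2 * α + 1) := by
  have hS : 0 ≤ S := (norm_nonneg _).trans (h.bound 0 (by omega) 0 le_rfl)
  have hb : ∀ t ∈ uIoc (√σ) ρ, ‖Complex.exp (-(Complex.I * τ * t)) *
      (b t * (((t ^ 2 - σ) ^ α : ℝ) : ℂ))‖ ≤ S * (ρ + 1) ^ (2 * α) := by
    intro t ht
    rw [uIoc_of_le hs] at ht
    have ht0 : 0 ≤ t := (Real.sqrt_nonneg σ).trans ht.1.le
    have h1 : 0 ≤ t ^ 2 - σ := by
      have := (Real.sqrt_le_left ht0).1 ht.1.le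
      linarith
    have h2 := h.bound 0 le_rfl t ht0
    rw [iteratedDeriv_zero] at h2
    rw [norm_mul, X1_norm, one_mul, norm_mul, Complex.norm_real,
      Real.norm_of_nonneg (Real.rpow_nonneg h1 _)]
    refine mul_le_mul h2 ?_ (Real.rpow_nonneg h1 _) hS
    have h3 : t ^ 2 - σ ≤ (ρ + 1) ^ 2 := by nlinarith [ht.2]
    calc (t ^ 2 - σ) ^ α ≤ ((ρ + 1) ^ 2) ^ α := Real.rpow_le_rpow h1 h3 (by linarith)
      _ = (ρ + 1) ^ (2 * α) := by
          rw [← Real.rpow_natCast, ← Real.rpow_mul (by linarith)]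
          norm_num
  have h4 := intervalIntegral.norm_integral_le_of_norm_le_const hb
  unfold X1_I
  refine h4.trans ?_
  have h5 : |ρ - √σ| ≤ ρ + 1 := by
    rw [abs_of_nonneg (by linarith)]
    linarith [Real.sqrt_nonneg σ]
  have h6 : (ρ + 1) ^ (2 * α + 1) = (ρ + 1) ^ (2 * α) * (ρ + 1) := by
    rw [Real.rpow_add (by linarith), Real.rpow_one]
  rw [h6]
  have h7 : 0 ≤ (ρ + 1) ^ (2 * α) := Real.rpow_nonneg (by linarith) _
  calc S * (ρ + 1) ^ (2 * α) * |ρ - √σ| ≤ S * (ρ + 1) ^ (2 * α) * (ρ + 1) :=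
        mul_le_mul_of_nonneg_left h5 (mul_nonneg hS h7)
    _ = 1 * S * ((ρ + 1) ^ (2 * α) * (ρ + 1)) := by ring

private theorem X1_parts {α : ℝ} (hα : 3 / 2 ≤ α) {b : ℝ → ℂ} {ρ τ σ : ℝ}
    (hb : ContDiff ℝ ∞ b) (hsupp : ∀ t, ρ < t → b t = 0) (hτ : 0 < τ) (hσ : 0 ≤ σ) :
    ‖X1_I b α τ σ ρ‖ ≤ (‖X1_I (deriv b) α τ σ ρ‖ +
      2 * α * ‖X1_I (fun t : ℝ => (t : ℂ) * b t) (α - 1) τ σ ρ‖) / τ := by
  have hbρ : b ρ = 0 := by
    have h1 : Tendsto b (𝓝[>] ρ) (𝓝 (b ρ)) := hb.continuous.continuousAt.continuousWithinAt.tendsto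
    have h2 : Tendsto b (𝓝[>] ρ) (𝓝 0) := by
      refine tendsto_const_nhds.congr' ?_
      filter_upwards [self_mem_nhdsWithin] with t ht
      exact (hsupp t ht).symm
    exact tendsto_nhds_unique h1 h2
  have hdb : ∀ t, HasDerivAt b (deriv b t) t := fun t =>
    (hb.differentiable (by simp) t).hasDerivAt
  have hdc : Continuous (deriv b) := hb.continuous_deriv (by simp)
  have hP := X1_P α σ (by linarith)
  have hP1 := X1_P (α - 1) σ (by linarith)
  set u : ℝ → ℂ := fun t => b t * (((t ^ 2 - σ) ^ α : ℝ) : ℂ) with hu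
  set u' : ℝ → ℂ := fun t => deriv b t * (((t ^ 2 - σ) ^ α : ℝ) : ℂ) +
    b t * (2 * α * (t * (((t ^ 2 - σ) ^ (α - 1) : ℝ) : ℂ)) : ℂ) with hu'
  have hud : ∀ t, HasDerivAt u (u' t) t := fun t =>
    (hdb t).mul (X1_P_deriv (by linarith) σ t)
  have hu'c : Continuous u' := by
    refine (hdc.mul hP).add (hb.continuous.mul (continuous_const.mul
      (Complex.continuous_ofReal.mul hP1)))
  have hparts := intervalIntegral.integral_mul_deriv_eq_deriv_mul (a := √σ) (b := ρ)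
    (fun t _ => hud t) (fun t _ => X1_exp_deriv hτ.ne' t)
    (hu'c.intervalIntegrable _ _) ((X1_exp τ).intervalIntegrable _ _)
  have h0 : u (√σ) = 0 := by
    rw [hu]
    simp only
    rw [Real.sq_sqrt hσ, sub_self, Real.zero_rpow (by linarith), Complex.ofReal_zero, mul_zero]
  have h1 : u ρ = 0 := by
    rw [hu]
    simp only
    rw [hbρ, zero_mul]
  rw [h0, h1, zero_mul, zero_mul, sub_zero, zero_sub] at hparts
  have e1 : X1_I b α τ σ ρ = ∫ t in (√σ)..ρ, u t * Complex.exp (-(Complex.I * τ * t)) := by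
    unfold X1_I
    refine intervalIntegral.integral_congr fun t _ => ?_
    simp only [hu]
    ring
  rw [e1, hparts, norm_neg]
  have hE := X1_exp τ
  have e2 : ∫ t in (√σ)..ρ, u' t * (Complex.exp (-(Complex.I * τ * t)) / (-(Complex.I * τ))) =
      (X1_I (deriv b) α τ σ ρ + 2 * α * X1_I (fun t : ℝ => (t : ℂ) * b t) (α - 1) τ σ ρ) /
        (-(Complex.I * τ)) := by
    unfold X1_I
    rw [← intervalIntegral.integral_const_mul, ← intervalIntegral.integral_add,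
      ← intervalIntegral.integral_div]
    · refine intervalIntegral.integral_congr fun t _ => ?_
      simp only [hu']
      ring
    · exact (hE.mul (hdc.mul hP)).intervalIntegrable _ _
    · exact (continuous_const.mul (hE.mul ((Complex.continuous_ofReal.mul hb.continuous).mul
        hP1))).intervalIntegrable _ _
  rw [e2, norm_div, norm_neg, norm_mul, Complex.norm_I, one_mul, Complex.norm_real,
    Real.norm_of_nonneg hτ.le]
  refine div_le_div_of_nonneg_right ?_ hτ.le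
  refine (norm_add_le _ _).trans ?_
  rw [norm_mul]
  have h3 : ‖(2 * α : ℂ)‖ = 2 * α := by
    have : (2 * α : ℂ) = ((2 * α : ℝ) : ℂ) := by push_cast; ring
    rw [this, Complex.norm_real, Real.norm_of_nonneg (by linarith)]
  rw [h3]

private theorem X1_main (n : ℕ) : ∀ α : ℝ, (n : ℝ) + 1 / 2 ≤ α → ∃ C : ℝ, 0 ≤ C ∧
    ∀ (b : ℝ → ℂ) (ρ S τ σ : ℝ), 0 ≤ ρ → Sm n b ρ S → 1 ≤ τ → 0 ≤ σ → √σ ≤ ρ →
      ‖X1_I b α τ σ ρ‖ ≤ C * S * (ρ + 1) ^ (2 * α + 1) / τ ^ n := by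
  induction n with
  | zero =>
    intro α hα
    refine ⟨1, zero_le_one, fun b ρ S τ σ hρ h hτ hσ hs => ?_⟩
    rw [pow_zero, div_one]
    exact X1_base (by simpa using hα) hρ h hσ hs
  | succ n ih =>
    intro α hα
    have hn : (0 : ℝ) ≤ n := Nat.cast_nonneg n
    push_cast at hα
    obtain ⟨C1, hC1, h1⟩ := ih α (by linarith)
    obtain ⟨C2, hC2, h2⟩ := ih (α - 1) (by linarith)
    refine ⟨C1 + 2 * α * (C2 * (n + 1)), by
      have : 0 ≤ α := by linarith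
      positivity, fun b ρ S τ σ hρ h hτ hσ hs => ?_⟩
    have hS : 0 ≤ S := (norm_nonneg _).trans (h.bound 0 (by omega) 0 le_rfl)
    have hτ0 : 0 < τ := by linarith
    have a1 := h1 (deriv b) ρ S τ σ hρ (X1_Sm_deriv h) hτ hσ hs
    have a2 := h2 (fun t : ℝ => (t : ℂ) * b t) ρ _ τ σ hρ (X1_Sm_mul hρ h) hτ hσ hs
    have a3 := X1_parts (α := α) (b := b) (ρ := ρ) (τ := τ) (σ := σ) (by linarith) h.smooth
      h.supp hτ0 hσ
    have hρ1 : 1 ≤ ρ + 1 := by linarith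
    have hexp : (ρ + 1) * (ρ + 1) ^ (2 * (α - 1) + 1) ≤ (ρ + 1) ^ (2 * α + 1) := by
      calc (ρ + 1) * (ρ + 1) ^ (2 * (α - 1) + 1) = (ρ + 1) ^ (1 + (2 * (α - 1) + 1)) := by
            rw [Real.rpow_add (by linarith) 1 (2 * (α - 1) + 1), Real.rpow_one]
        _ ≤ (ρ + 1) ^ (2 * α + 1) := Real.rpow_le_rpow_of_exponent_le hρ1 (by linarith)
    have a4 : ‖X1_I (fun t : ℝ => (t : ℂ) * b t) (α - 1) τ σ ρ‖ ≤
        C2 * (n + 1) * S * (ρ + 1) ^ (2 * α + 1) / τ ^ n := by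
      refine a2.trans (div_le_div_of_nonneg_right ?_ (by positivity))
      calc C2 * ((n + 1) * (ρ + 1) * S) * (ρ + 1) ^ (2 * (α - 1) + 1)
          = C2 * (n + 1) * S * ((ρ + 1) * (ρ + 1) ^ (2 * (α - 1) + 1)) := by ring
        _ ≤ C2 * (n + 1) * S * (ρ + 1) ^ (2 * α + 1) :=
            mul_le_mul_of_nonneg_left hexp (by positivity)
    refine a3.trans ?_
    have h5 : (C1 + 2 * α * (C2 * (n + 1))) * S * (ρ + 1) ^ (2 * α + 1) / τ ^ (n + 1) =
        (C1 * S * (ρ + 1) ^ (2 * α + 1) / τ ^ n +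
          2 * α * (C2 * (n + 1) * S * (ρ + 1) ^ (2 * α + 1) / τ ^ n)) / τ := by
      rw [pow_succ]
      field_simp
    rw [h5]
    refine div_le_div_of_nonneg_right ?_ hτ0.le
    have hα0 : 0 ≤ 2 * α := by linarith
    exact add_le_add a1 (mul_le_mul_of_nonneg_left a4 hα0)

theorem Ab_osc (N : ℕ) (hN : 1 ≤ N) : ∃ C : ℝ, 0 ≤ C ∧ ∀ (q : ℝ → ℝ) (b : ℝ → ℂ)
    (ρ S τ σ : ℝ), 0 ≤ ρ → Tl q ρ → Sm (N - 1) b ρ S → 1 ≤ τ → 0 ≤ σ →
    (∀ t, 0 ≤ t → deriv q t = (Complex.exp (-(Complex.I * τ * t)) * b t).re) →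
    |Ab N q σ| ≤ C * S * (ρ + 1) ^ (2 * N) / τ ^ (N - 1) := by
  have hN1 : ((N - 1 : ℕ) : ℝ) = (N : ℝ) - 1 := by
    rw [Nat.cast_sub hN, Nat.cast_one]
  obtain ⟨C, hC, hmain⟩ := X1_main (N - 1) ((N : ℝ) - 1 / 2) (by rw [hN1]; linarith)
  set c : ℝ := 1 / (√Real.pi * Real.Gamma ((N : ℝ) + 1 / 2)) with hc
  refine ⟨|c| * C, by positivity, fun q b ρ S τ σ hρ hq hb hτ hσ hd => ?_⟩
  have hS : 0 ≤ S := (norm_nonneg _).trans (hb.bound 0 (by omega) 0 le_rfl)
  rw [Ab_eq hρ hq N hσ, ← hc, abs_neg, abs_mul]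
  have hF0 : ∀ t, ρ < t → deriv q t * (t ^ 2 - σ) ^ ((N : ℝ) - 1 / 2) = 0 := by
    intro t ht
    rw [hd t (hρ.trans ht.le), hb.supp t ht, mul_zero, Complex.zero_re, zero_mul]
  rw [AB8_Ioi hF0]
  have hR : 0 ≤ |c| * C * S * (ρ + 1) ^ (2 * N) / τ ^ (N - 1) := by
    have : 0 < τ := by linarith
    positivity
  rcases le_or_gt (√σ) ρ with hs | hs
  · have hP := X1_P ((N : ℝ) - 1 / 2) σ (by
      have : (1 : ℝ) ≤ N := by exact_mod_cast hN
      linarith)
    have hcont : Continuous fun t : ℝ => Complex.exp (-(Complex.I * τ * t)) *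
        (b t * (((t ^ 2 - σ) ^ ((N : ℝ) - 1 / 2) : ℝ) : ℂ)) :=
      (X1_exp τ).mul (hb.smooth.continuous.mul hP)
    have h1 : ∫ t in (√σ)..ρ, deriv q t * (t ^ 2 - σ) ^ ((N : ℝ) - 1 / 2) =
        (X1_I b ((N : ℝ) - 1 / 2) τ σ ρ).re := by
      have h2 := Complex.reCLM.intervalIntegral_comp_comm (μ := volume)
        (hcont.intervalIntegrable (√σ) ρ)
      have h3 : ∀ z : ℂ, Complex.reCLM z = z.re := fun _ => rfl
      rw [h3] at h2
      unfold X1_I
      rw [← h2]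
      refine intervalIntegral.integral_congr fun t ht => ?_
      rw [uIcc_of_le hs] at ht
      simp only [h3]
      rw [hd t ((Real.sqrt_nonneg σ).trans ht.1), ← mul_assoc, Complex.re_mul_ofReal]
    rw [h1]
    have h4 := hmain b ρ S τ σ hρ hb hτ hσ hs
    have h5 : (2 : ℝ) * ((N : ℝ) - 1 / 2) + 1 = ((2 * N : ℕ) : ℝ) := by
      push_cast
      ring
    rw [h5, Real.rpow_natCast] at h4
    calc |c| * |(X1_I b ((N : ℝ) - 1 / 2) τ σ ρ).re|
        ≤ |c| * (C * S * (ρ + 1) ^ (2 * N) / τ ^ (N - 1)) :=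
          mul_le_mul_of_nonneg_left ((Complex.abs_re_le_norm _).trans h4) (abs_nonneg _)
      _ = |c| * C * S * (ρ + 1) ^ (2 * N) / τ ^ (N - 1) := by ring
  · have h1 : ∫ t in (√σ)..ρ, deriv q t * (t ^ 2 - σ) ^ ((N : ℝ) - 1 / 2) = 0 := by
      rw [intervalIntegral.integral_symm, intervalIntegral.integral_of_le hs.le,
        setIntegral_eq_zero_of_forall_eq_zero fun t ht => hF0 t ht.1, neg_zero]
    rw [h1, abs_zero, mul_zero]
    exact hR

end BE73
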