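import Pool.Agent.LibBE73.X1

/-! Row X3: the smoothing lemma with an exponent independent of `N` (cites X1). -/

open MeasureTheory Set Filter Topology
open scoped ContDiff

namespace BE73

open BGS BR

theorem Sm_mono {n n' : ℕ} (h : n' ≤ n) {b : ℝ → ℂ} {ρ S : ℝ} (hb : Sm n b ρ S) :
    Sm n' b ρ S where
  smooth := hb.smooth
  supp := hb.supp
  bound := fun k hk => hb.bound k (hk.trans h)

theorem Gk_val {K : Set Pl} {G : Pl × Pl → Co} {C1 : ℝ} {k : ℕ} {c : Pl × Pl → ℝ}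
    (h : Gk K G C1 k c) :
    ∃ B : ℝ, 0 ≤ B ∧ ∀ x ∈ K, ∀ v : Pl, |c (x, v)| ≤ B * Real.exp (C1 * ‖v‖) := by
  have h1 : ∃ B : ℝ, ∀ x ∈ K, ∀ v : Pl, |c (x, v)| ≤ B * Real.exp (C1 * ‖v‖) := by
    cases k with
    | zero => exact h
    | succ k => exact h.1
  obtain ⟨B, hB⟩ := h1
  refine ⟨|B|, abs_nonneg B, fun x hx v => (hB x hx v).trans ?_⟩
  exact mul_le_mul_of_nonneg_right (le_abs_self B) (Real.exp_pos _).le

/-- The pointwise bound. -/
theorem X3_pt {K : Set Pl} {G : Pl × Pl → Co} {C1 : ℝ} (hC1 : 0 ≤ C1) {k : ℕ}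
    {c : Pl × Pl → ℝ} (hgk : Gk K G C1 k c) {N : ℕ} (hN : 1 ≤ N) :
    ∃ B : ℝ, 0 ≤ B ∧ ∀ x ∈ K, ∀ (q : ℝ → ℝ) (b : ℝ → ℂ) (ρ S τ : ℝ), 0 ≤ ρ → Tl q ρ →
      Sm (N - 1) b ρ S → 1 ≤ τ →
      (∀ t, 0 ≤ t → deriv q t = (Complex.exp (-(Complex.I * τ * t)) * b t).re) →
      ∀ v : Pl, sg v ≤ ρ ^ 2 → ∀ σ : ℝ, 0 ≤ σ →
      |c (x, v) * Ab N q σ| ≤ B * Real.exp ((C1 + 1) * ρ) * S / τ ^ (N - 1) := by
  obtain ⟨B0, hB0, h0⟩ := Gk_val hgk
  obtain ⟨B1, hB1, h1⟩ := Ab_osc N hN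
  refine ⟨B0 * (B1 * ((2 * N).factorial * Real.exp 1)), by positivity, ?_⟩
  intro x hx q b ρ S τ hρ hq hb hτ hd v hv σ hσ
  have hS0 : 0 ≤ S := (norm_nonneg _).trans (hb.bound 0 (Nat.zero_le _) 0 le_rfl)
  have hτ0 : 0 < τ := by linarith
  have ha : |c (x, v)| ≤ B0 * Real.exp (C1 * ρ) := by
    refine (h0 x hx v).trans ?_
    have h2 : C1 * ‖v‖ ≤ C1 * ρ := mul_le_mul_of_nonneg_left (PX6_norm_le hρ hv) hC1
    exact mul_le_mul_of_nonneg_left (Real.exp_le_exp.2 h2) hB0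
  have hr : (ρ + 1) ^ (2 * N) ≤ (2 * N).factorial * Real.exp 1 * Real.exp ρ := by
    have h5 := Real.pow_div_factorial_le_exp (ρ + 1) (by linarith) (2 * N)
    rw [div_le_iff₀ (by positivity), Real.exp_add] at h5
    linarith
  have hb2 : |Ab N q σ| ≤
      B1 * S * ((2 * N).factorial * Real.exp 1 * Real.exp ρ) / τ ^ (N - 1) := by
    refine (h1 q b ρ S τ σ hρ hq hb hτ hσ hd).trans ?_
    gcongr
  rw [abs_mul]
  calc |c (x, v)| * |Ab N q σ|
      ≤ (B0 * Real.exp (C1 * ρ)) *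
        (B1 * S * ((2 * N).factorial * Real.exp 1 * Real.exp ρ) / τ ^ (N - 1)) :=
        mul_le_mul ha hb2 (abs_nonneg _) (by positivity)
    _ = _ := by
        rw [show (C1 + 1) * ρ = C1 * ρ + ρ by ring, Real.exp_add]
        ring

theorem X3_bound {K : Set Pl} {G : Pl × Pl → Co} (hG : Fam K G) {C1 : ℝ} (hC1 : 0 ≤ C1)
    (k : ℕ) : ∀ N : ℕ, 2 * k + 1 ≤ N → ∀ c : Pl × Pl → ℝ, RB K c → Gk K G C1 k c →
    ∃ B : ℝ, 0 ≤ B ∧ ∀ x ∈ K, ∀ (lam2 : ℝ) (U : Pl → ℝ), ContDiff ℝ ∞ U →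
      WkEig (fun v => G (x, v)) lam2 U → ∀ (q : ℝ → ℝ) (b : ℝ → ℂ) (ρ S τ : ℝ), 0 ≤ ρ → Tl q ρ →
      Sm (N - 1) b ρ S → 1 ≤ τ →
      (∀ t, 0 ≤ t → deriv q t = (Complex.exp (-(Complex.I * τ * t)) * b t).re) →
      ∀ ε : ℝ, 0 < ε →
      |lam2| ^ k * |∫ v, c (x, v) * Ab N q (sg v + ε) * U v * wt (fun v => G (x, v)) v| ≤
        B * Real.exp ((C1 + 1) * ρ) * S / τ ^ (N - 1 - 2 * k) *
          ∫ v in {v | sg v ≤ ρ ^ 2}, |U v| * wt (fun v => G (x, v)) v := by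
  induction k with
  | zero =>
    intro N hN c hc hgk
    obtain ⟨B, hB, hb⟩ := X3_pt hC1 hgk (N := N) (by omega)
    refine ⟨B, hB, ?_⟩
    intro x hx lam2 U hU hw q b ρ S τ hρ hq hSm hτ hd ε hε
    have hP := hG.pm x
    rw [pow_zero, one_mul, mul_zero, Nat.sub_zero, ← integral_const_mul]
    rw [← setIntegral_eq_integral_of_forall_compl_eq_zero (s := {v : Pl | sg v ≤ ρ ^ 2})
      (f := fun v => c (x, v) * Ab N q (sg v + ε) * U v * wt (fun v => G (x, v)) v)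
      (fun v hv => by
        show c (x, v) * Ab N q (sg v + ε) * U v * wt (fun v => G (x, v)) v = 0
        rw [PX6_A_zero hρ hq hε N hv]
        ring)]
    rw [← Real.norm_eq_abs]
    apply norm_integral_le_of_norm_le ((PX6_intB hρ hP hU.continuous).const_mul _)
    rw [ae_restrict_iff' (PX6_ball_compact hρ).measurableSet]
    refine Eventually.of_forall fun v hv => ?_
    have h1 := hb x hx q b ρ S τ hρ hq hSm hτ hd v hv (sg v + ε)
      (by have := PX6_sg_nonneg v; linarith)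
    have hwp := wt_pos hP v
    rw [Real.norm_eq_abs, abs_mul, abs_mul, abs_of_pos hwp, mul_assoc]
    exact mul_le_mul_of_nonneg_right h1 (mul_nonneg (abs_nonneg _) hwp.le)
  | succ k ih =>
    intro N hN c hc hgk
    obtain ⟨M, rfl⟩ : ∃ M, N = M + 2 := ⟨N - 2, by omega⟩
    obtain ⟨B1, hB1, h1⟩ := ih M (by omega) _ (PX6_RB_E hc) hgk.2.1
    obtain ⟨B2, hB2, h2⟩ := ih (M + 1) (by omega) _ (PX6_RB_F hG hc) hgk.2.2.1
    obtain ⟨B3, hB3, h3⟩ := ih (M + 2) (by omega) _ (PX6_RB_H hG hc) hgk.2.2.2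
    refine ⟨B1 + B2 + B3, by positivity, ?_⟩
    intro x hx lam2 U hU hw q b ρ S τ hρ hq hSm hτ hd ε hε
    have hS0 : 0 ≤ S := (norm_nonneg _).trans (hSm.bound 0 (Nat.zero_le _) 0 le_rfl)
    have hτ0 : 0 < τ := by linarith
    have b1 := h1 x hx lam2 U hU hw q b ρ S τ hρ hq (Sm_mono (by omega) hSm) hτ hd ε hε
    have b2 := h2 x hx lam2 U hU hw q b ρ S τ hρ hq (Sm_mono (by omega) hSm) hτ hd ε hε
    have b3 := h3 x hx lam2 U hU hw q b ρ S τ hρ hq hSm hτ hd ε hε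
    have hst := PX6_step hG hc (x := x) hU hw hρ hq hε M
    have hB := PX6_B_nonneg (ρ := ρ) (U := U) (hG.pm x)
    set J := ∫ v in {v | sg v ≤ ρ ^ 2}, |U v| * wt (fun v => G (x, v)) v with hJ
    have e1 : M + 2 - 1 - 2 * (k + 1) = M - 1 - 2 * k := by omega
    have hle : ∀ (B' : ℝ) (n : ℕ), 0 ≤ B' → M - 1 - 2 * k ≤ n →
        B' * Real.exp ((C1 + 1) * ρ) * S / τ ^ n * J ≤
          B' * Real.exp ((C1 + 1) * ρ) * S / τ ^ (M - 1 - 2 * k) * J := by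
      intro B' n hB' hn
      have h5 : τ ^ (M - 1 - 2 * k) ≤ τ ^ n := pow_le_pow_right₀ hτ hn
      gcongr
    have c2 := b2.trans (hle B2 _ hB2 (by omega))
    have c3 := b3.trans (hle B3 _ hB3 (by omega))
    rw [e1, pow_succ, mul_assoc, ← abs_mul, hst, abs_neg]
    refine le_trans (mul_le_mul_of_nonneg_left (abs_add_three _ _ _) (by positivity)) ?_
    rw [mul_add, mul_add]
    refine (add_le_add (add_le_add b1 c2) c3).trans (le_of_eq ?_)
    ring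

theorem smoothingN {K : Set Pl} {G : Pl × Pl → Co} (hG : Fam K G) {C1 : ℝ} (hC1 : 0 ≤ C1)
    (k N : ℕ) (hN : 2 * k + 1 ≤ N) {c : Pl × Pl → ℝ} (hc : RB K c) (hgk : Gk K G C1 k c) :
    ∃ B : ℝ, 0 ≤ B ∧ ∀ x ∈ K, ∀ (lam2 : ℝ) (U : Pl → ℝ), ContDiff ℝ ∞ U →
      WkEig (fun v => G (x, v)) lam2 U → ∀ (q : ℝ → ℝ) (b : ℝ → ℂ) (ρ S τ : ℝ), 0 ≤ ρ → Tl q ρ →
      Sm (N - 1) b ρ S → 1 ≤ τ →
      (∀ t, 0 ≤ t → deriv q t = (Complex.exp (-(Complex.I * τ * t)) * b t).re) →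
      |lam2| ^ k * |∫ v, c (x, v) * Ab N q (sg v) * U v * wt (fun v => G (x, v)) v| ≤
        B * Real.exp ((C1 + 1) * ρ) * S / τ ^ (N - 1 - 2 * k) *
          ∫ v in {v | sg v ≤ ρ ^ 2}, |U v| * wt (fun v => G (x, v)) v := by
  obtain ⟨B, hB, hb⟩ := X3_bound hG hC1 k N hN c hc hgk
  obtain ⟨B', hB', hpt⟩ := X3_pt hC1 hgk (N := N) (by omega)
  refine ⟨B, hB, ?_⟩
  intro x hx lam2 U hU hw q b ρ S τ hρ hq hSm hτ hd
  have hP := hG.pm x
  have hcs := (PX6_slice hc.1 x).continuous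
  set F : ℕ → Pl → ℝ := fun n v =>
    c (x, v) * Ab N q (sg v + 1 / ((n : ℝ) + 1)) * U v * wt (fun v => G (x, v)) v with hF
  have hpos : ∀ n : ℕ, 0 < 1 / ((n : ℝ) + 1) := fun n => by positivity
  have hlim : Tendsto (fun n => ∫ v, F n v) atTop
      (𝓝 (∫ v, c (x, v) * Ab N q (sg v) * U v * wt (fun v => G (x, v)) v)) := by
    apply tendsto_integral_of_dominated_convergence
      (indicator {v : Pl | sg v ≤ ρ ^ 2} (fun v =>
        B' * Real.exp ((C1 + 1) * ρ) * S / τ ^ (N - 1) * (|U v| * wt (fun v => G (x, v)) v)))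
    · intro n
      exact (PX6_int hρ hq (hpos n) N hP hcs hU.continuous).aestronglyMeasurable
    · rw [integrable_indicator_iff (PX6_ball_compact hρ).measurableSet]
      exact (PX6_intB hρ hP hU.continuous).const_mul _
    · intro n
      refine Eventually.of_forall fun v => ?_
      by_cases hv : sg v ≤ ρ ^ 2
      · rw [indicator_of_mem (show v ∈ {v : Pl | sg v ≤ ρ ^ 2} from hv)]
        have h1 := hpt x hx q b ρ S τ hρ hq hSm hτ hd v hv (sg v + 1 / ((n : ℝ) + 1))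
          (by have := PX6_sg_nonneg v; have := hpos n; linarith)
        have hwp := wt_pos hP v
        simp only [hF]
        rw [Real.norm_eq_abs, abs_mul, abs_mul, abs_of_pos hwp, mul_assoc]
        exact mul_le_mul_of_nonneg_right h1 (mul_nonneg (abs_nonneg _) hwp.le)
      · rw [indicator_of_notMem (show v ∉ {v : Pl | sg v ≤ ρ ^ 2} from hv)]
        simp only [hF]
        rw [PX6_A_zero hρ hq (hpos n) N hv]
        simp
    · have hne : ∀ᵐ v : Pl, v ≠ 0 := by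
        rw [ae_iff]
        simp
      filter_upwards [hne] with v hv
      have hs : 0 < sg v := by
        rcases eq_or_lt_of_le (PX6_sg_nonneg v) with h | h
        · exfalso
          apply hv
          unfold sg at h
          have h1 : v.1 = 0 := by nlinarith [sq_nonneg v.1, sq_nonneg v.2]
          have h2 : v.2 = 0 := by nlinarith [sq_nonneg v.1, sq_nonneg v.2]
          exact Prod.ext h1 h2
        · exact h
      have hcont : ContinuousAt (Ab N q) (sg v) :=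
        (Ab_contDiffOn hρ hq N).continuousOn.continuousAt (Ioi_mem_nhds hs)
      have ht : Tendsto (fun n : ℕ => sg v + 1 / ((n : ℝ) + 1)) atTop (𝓝 (sg v)) := by
        have := (tendsto_const_nhds (x := sg v)).add
          (tendsto_one_div_add_atTop_nhds_zero_nat (𝕜 := ℝ))
        rwa [add_zero] at this
      have hA : Tendsto (fun n : ℕ => Ab N q (sg v + 1 / ((n : ℝ) + 1))) atTop
          (𝓝 (Ab N q (sg v))) := hcont.tendsto.comp ht
      exact ((tendsto_const_nhds.mul hA).mul tendsto_const_nhds).mul tendsto_const_nhds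
  have hlim2 := (hlim.abs).const_mul (|lam2| ^ k)
  refine le_of_tendsto hlim2 (Eventually.of_forall fun n => ?_)
  exact hb x hx lam2 U hU hw q b ρ S τ hρ hq hSm hτ hd _ (hpos n)

end BE73
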