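import Pool.Agent.LibBE73.X2
import Pool.Agent.LibBE73.X3

/-! Row X4: the error term of the exact formula for every `N` (cites X2, X3).
Plan: copy `PX8_E` in LibBR70/PX8.lean. `smoothingN` with `K = closure D`, `G = mE m` (`Fam_Gx`), `c = cN m N`
(`RB_LL (Fam_Gx ..) (RB_UU (Fam_Gx ..) N)`), once with `k = 0`, once with `k = 2` (`lam2 = lam^2`; the factor
`τ^-(N-1)`, resp. `τ^-(N-5)`, both `≤ τ^-(N-5)`), `q = ql lam (osc a τ)` (`ql_Tl`), `b`, `S = 3 M (ρ+1)/(1+|lam-τ|)` from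
X2 with `n = N - 1` (so `AmpN N` is needed), `ball_L2`/`PX8_ball` for the integral of `|U|`: `≤ Q exp(Q ρ) ‖U‖`.
`Gk .. 2 c` implies `Gk .. 0 c` (first component). The exponent: `C = (C1 + 1) + Q + 1` with `C1` from `Growth` and
`Q` from `PX8_ball`, both independent of `N` (`ρ + 1 ≤ exp ρ`). `Gk (closure D) (mE m)`: note
`Gx m x v = mE m (x, v)` by definition. -/

open MeasureTheory Set Filter Topology
open scoped ContDiff

namespace BE73

open BGS BR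

variable {Γ : Type} [Group Γ] [MulAction Γ Pl] {D : Set Pl}

theorem ErN (hX : Surface Γ D) (hO : Ori Γ) (m : Mt Γ D) (hg : Growth D m.1.1) :
    ∃ C : ℝ, 0 ≤ C ∧ ∀ N : ℕ, 6 ≤ N → ∃ B : ℝ, 0 ≤ B ∧ ∀ (lam : ℝ) (U : TestS Γ), 0 ≤ lam →
      EigS hX m (lam ^ 2) U → ∀ (a : ℝ → ℂ) (ρ M τ : ℝ), 0 ≤ ρ → AmpN N a ρ M → 1 ≤ τ →
      ∀ x ∈ closure D,
      |∫ v, LL (Gx m.1.1 x) (UU (Gx m.1.1 x) N) v * Ab N (ql lam (osc a τ)) (sg v) *
        U.1 (Ex m.1.1 x v) * wt (Gx m.1.1 x) v| ≤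
        B * Real.exp (C * ρ) * M / τ ^ (N - 5) * √(bF hX m (oneT Γ) U U) /
          ((1 + lam ^ 4) * (1 + |lam - τ|)) := by
  have hm := hm_of_Mt m
  have hF := Fam_Gx hX hO hm
  obtain ⟨C1, hC1, hgk⟩ := hg
  obtain ⟨Q, hQ0, hQ⟩ := PX8_ball hX hO m
  refine ⟨(C1 + 1) + Q + 1, by positivity, ?_⟩
  intro N hN
  have hRB : RB (closure D) (cN m.1.1 N) := RB_LL hF (RB_UU hF N)
  have hk2 := hgk N
  have hk0 : Gk (closure D) (mE m.1.1) C1 0 (cN m.1.1 N) := hk2.1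
  obtain ⟨A, hA0, hA⟩ := smoothingN hF hC1 0 N (by omega) hRB hk0
  obtain ⟨B, hB0, hB⟩ := smoothingN hF hC1 2 N (by omega) hRB hk2
  refine ⟨(A + B) * 3 * Q, by positivity, ?_⟩
  intro lam U hlam hE a ρ M τ hρ haN hτ x hx
  have ha := haN.amp
  have hM := PX8_M ha
  obtain ⟨b, hb, hder⟩ := pl_sm (n := N - 1) hρ
    (by rw [Nat.sub_add_cancel (by omega : 1 ≤ N)]; exact haN) hτ hlam
  set I := ∫ v, LL (Gx m.1.1 x) (UU (Gx m.1.1 x) N) v * Ab N (ql lam (osc a τ)) (sg v) *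
        U.1 (Ex m.1.1 x v) * wt (Gx m.1.1 x) v with hI
  set S := 3 * M * (ρ + 1) / (1 + |lam - τ|) with hS
  set J := ∫ v in {v | sg v ≤ ρ ^ 2}, |U.1 (Ex m.1.1 x v)| * wt (Gx m.1.1 x) v with hJ
  set R := √(bF hX m (oneT Γ) U U) with hR
  have hden : 0 < 1 + |lam - τ| := by positivity
  have hS0 : 0 ≤ S := by
    rw [hS]
    positivity
  have hJ0 : 0 ≤ J := by
    rw [hJ]
    exact PX6_B_nonneg (ρ := ρ) (U := fun v => U.1 (Ex m.1.1 x v)) (Gx_PMt hX hm x)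
  have hR0 : 0 ≤ R := Real.sqrt_nonneg _
  have hT := PX8_Tl ha τ
  have hw := weak_normal hX m hE x
  have b0 := hA x hx (lam ^ 2) _ (PX8_U hX m U x) hw (ql lam (osc a τ)) b ρ S τ hρ
    (ql_Tl hT lam) hb hτ hder
  have b2 := hB x hx (lam ^ 2) _ (PX8_U hX m U x) hw (ql lam (osc a τ)) b ρ S τ hρ
    (ql_Tl hT lam) hb hτ hder
  set E := Real.exp ((C1 + 1) * ρ) with hEd
  have hE0 : 0 < E := Real.exp_pos _
  set t := τ ^ (N - 5) with ht
  have ht0 : 0 < t := by rw [ht]; positivity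
  have b0' : |I| ≤ A * E * S / t * J := by
    rw [pow_zero, one_mul] at b0
    refine b0.trans ?_
    apply mul_le_mul_of_nonneg_right _ hJ0
    apply div_le_div_of_nonneg_left (by positivity) ht0
    rw [ht]
    exact pow_le_pow_right₀ hτ (by omega)
  have b2' : lam ^ 4 * |I| ≤ B * E * S / t * J := by
    have e : |lam ^ 2| ^ 2 = lam ^ 4 := by
      rw [abs_of_nonneg (sq_nonneg lam)]
      ring
    rw [e] at b2
    exact b2
  have hball : J ≤ Q * Real.exp (Q * ρ) * R := hQ U ρ hρ x hx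
  have s1 : (1 + lam ^ 4) * |I| ≤ (A + B) * E * S / t * J := by
    have e : (A + B) * E * S / t * J = A * E * S / t * J + B * E * S / t * J := by ring
    rw [e]
    linarith
  have s2 : (A + B) * E * S / t * J ≤ (A + B) * E * S / t * (Q * Real.exp (Q * ρ) * R) :=
    mul_le_mul_of_nonneg_left hball (by positivity)
  have hρe : ρ + 1 ≤ Real.exp ρ := Real.add_one_le_exp ρ
  have s3 : (A + B) * E * S / t * (Q * Real.exp (Q * ρ) * R) ≤
      ((A + B) * 3 * Q) * Real.exp (((C1 + 1) + Q + 1) * ρ) * M / t * R / (1 + |lam - τ|) := by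
    rw [hS, show ((C1 + 1) + Q + 1) * ρ = (C1 + 1) * ρ + Q * ρ + ρ by ring, Real.exp_add,
      Real.exp_add, ← hEd]
    have e1 : (A + B) * E * (3 * M * (ρ + 1) / (1 + |lam - τ|)) / t *
        (Q * Real.exp (Q * ρ) * R) =
        ((A + B) * 3 * Q * E * Real.exp (Q * ρ) * M / t * R / (1 + |lam - τ|)) * (ρ + 1) := by
      ring
    have e2 : (A + B) * 3 * Q * (E * Real.exp (Q * ρ) * Real.exp ρ) * M / t * R /
        (1 + |lam - τ|) =
        ((A + B) * 3 * Q * E * Real.exp (Q * ρ) * M / t * R / (1 + |lam - τ|)) *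
          Real.exp ρ := by
      ring
    rw [e1, e2]
    exact mul_le_mul_of_nonneg_left hρe (by positivity)
  have hl : 0 < 1 + lam ^ 4 := by positivity
  rw [show (A + B) * 3 * Q * Real.exp ((C1 + 1 + Q + 1) * ρ) * M / t * R /
    ((1 + lam ^ 4) * (1 + |lam - τ|)) = (A + B) * 3 * Q *
    Real.exp ((C1 + 1 + Q + 1) * ρ) * M / t * R / (1 + |lam - τ|) / (1 + lam ^ 4) by
      rw [div_div, mul_comm (1 + |lam - τ|)]]
  rw [le_div_iff₀ hl, mul_comm]
  exact s1.trans (s2.trans s3)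

end BE73
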