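import Pool.Agent.LibBE73.X4

/-! Row X6: the trace formula for every `N`, finite sum form (cites X4).
Plan: copy `Er_bound`, `diag` (LibTR29/T4.lean) and `trace1` (LibTR29/T5.lean) with `N` in place of `5` and
`A = B exp(C ρ) M / τ^(N-5)` in place of `C exp(C ρ) M`; the only input that changes is `ErN` (X4) instead of `Eterm`
(`Er`, `coef`, `expand`, `wsum`, `hh_decay`, `Kd_cont`, `diag_eq` ... are stated for every `N` or do not depend on it;
`AmpN N a ρ M` contains `Amp a ρ M`). The result has the factor `A * (C2 / τ) ≤ A C2`. -/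

open MeasureTheory Set Filter Topology
open scoped ContDiff

namespace BE73

open BGS BR TR

variable {Γ : Type} [Group Γ] [MulAction Γ Pl] {D : Set Pl}

theorem X6_Er (hX : Surface Γ D) (hO : Ori Γ) (m : Mt Γ D) (hg : Growth D m.1.1)
    {e : ℕ → TestS Γ} (h : Bas hX m e) : ∃ C : ℝ, 0 ≤ C ∧ ∀ N : ℕ, 6 ≤ N → ∃ B : ℝ, 0 ≤ B ∧
      ∀ (j : ℕ) (a : ℝ → ℂ) (ρ M τ : ℝ), 0 ≤ ρ → AmpN N a ρ M →
      1 ≤ τ → ∀ x ∈ closure D, |Er m.1.1 N (FG33.lam m j) (osc a τ) (e j).1 x| ≤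
        B * Real.exp (C * ρ) * M / τ ^ (N - 5) * wgt (FG33.lam m j) τ := by
  obtain ⟨C, hC0, hC⟩ := ErN hX hO m hg
  refine ⟨C, hC0, fun N hN => ?_⟩
  obtain ⟨B, hB0, hB⟩ := hC N hN
  refine ⟨B, hB0, fun j a ρ M τ hρ ha hτ x hx => ?_⟩
  have h1 := hB (FG33.lam m j) (e j) (Real.sqrt_nonneg _) (EigS_of hX m h j) a ρ M τ hρ ha hτ x hx
  rw [bF_self h, Real.sqrt_one, mul_one] at h1
  unfold Er
  refine h1.trans (le_of_eq ?_)
  unfold wgt
  rw [mul_one_div]

theorem X6_diag (hX : Surface Γ D) (hO : Ori Γ) (m : Mt Γ D) {e : ℕ → TestS Γ}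
    (h : Bas hX m e) (N : ℕ) (a : ℝ → ℂ) (ρ M τ : ℝ) (hρ : 0 ≤ ρ)
    (ha : Amp a ρ M) (hτ : 1 ≤ τ) (A : ℝ) (hA0 : 0 ≤ A) (x : Pl)
    (hEj : ∀ j, |Er m.1.1 N (FG33.lam m j) (osc a τ) (e j).1 x| ≤ A * wgt (FG33.lam m j) τ) :
      |(Pa hX m N hρ ha τ x).1 x - ∑' j, hh (osc a τ) (FG33.lam m j) * (e j).1 x ^ 2| ≤
        ∑' j, A * wgt (FG33.lam m j) τ * |(e j).1 x| := by
  obtain ⟨C1, hC1, hsup⟩ := sup_e hX hO m h
  have hL := Lev_of h
  have hz := zsum3 hL
  obtain ⟨C7, hC7⟩ := hh_decay (osc_smooth ha τ) (osc_supp ha τ) 7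
  have hcoef : ∀ j, bF hX m (oneT Γ) (e j) (Pa hX m N hρ ha τ x)
      = hh (osc a τ) (FG33.lam m j) * (e j).1 x - Er m.1.1 N (FG33.lam m j) (osc a τ) (e j).1 x :=
    fun j => coef hX m N (EigS_of hX m h j) (osc_smooth ha τ) (osc_even ha τ) hρ (osc_supp ha τ) x
  have hh7 : ∀ j, |hh (osc a τ) (FG33.lam m j)| * (1 + FG33.lam m j) ^ 4
      ≤ C7 * (1 / (FG33.lam m j + 1) ^ 3) := by
    intro j
    have h1 := hC7 (FG33.lam m j)
    have h2 := hL.nn j
    rw [abs_of_nonneg h2] at h1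
    rw [mul_one_div, le_div_iff₀ (by positivity)]
    refine le_trans (le_of_eq ?_) h1
    ring
  -- summability of the error
  have hs1 : Summable fun j => A * wgt (FG33.lam m j) τ * (1 + FG33.lam m j) ^ 2 := by
    refine Summable.of_nonneg_of_le (fun j => ?_) (fun j => ?_)
      (hz.mul_left (A * (8 * (1 + τ))))
    · have := wgt_nonneg (FG33.lam m j) τ
      positivity
    · have := wgt_le2 (hL.nn j) hτ
      calc A * wgt (FG33.lam m j) τ * (1 + FG33.lam m j) ^ 2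
          = A * (wgt (FG33.lam m j) τ * (1 + FG33.lam m j) ^ 2) := by ring
        _ ≤ A * (8 * (1 + τ) * (1 / (FG33.lam m j + 1) ^ 3)) := by gcongr
        _ = _ := by ring
  have hs2 : Summable fun j => |hh (osc a τ) (FG33.lam m j)| * (1 + FG33.lam m j) ^ 4 := by
    refine Summable.of_nonneg_of_le (fun j => by positivity) hh7 (hz.mul_left C7)
  have hs : Summable fun j => |bF hX m (oneT Γ) (e j) (Pa hX m N hρ ha τ x)| *
      (1 + FG33.lam m j) ^ 2 := by
    refine Summable.of_nonneg_of_le (fun j => by positivity) (fun j => ?_)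
      ((hs2.mul_left C1).add hs1)
    rw [hcoef]
    have h2 := hsup j x
    have h3 := hEj j
    have h4 : 0 ≤ (1 + FG33.lam m j) ^ 2 := by positivity
    calc |hh (osc a τ) (FG33.lam m j) * (e j).1 x -
          Er m.1.1 N (FG33.lam m j) (osc a τ) (e j).1 x| * (1 + FG33.lam m j) ^ 2
        ≤ (|hh (osc a τ) (FG33.lam m j)| * |(e j).1 x| +
          |Er m.1.1 N (FG33.lam m j) (osc a τ) (e j).1 x|) * (1 + FG33.lam m j) ^ 2 := by
          refine mul_le_mul_of_nonneg_right ?_ h4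
          rw [← abs_mul]
          exact abs_sub _ _
      _ ≤ (|hh (osc a τ) (FG33.lam m j)| * (C1 * (1 + FG33.lam m j) ^ 2) +
          A * wgt (FG33.lam m j) τ) * (1 + FG33.lam m j) ^ 2 := by
          gcongr
      _ = _ := by ring
  have hexp := expand hX hO m h (Pa hX m N hρ ha τ x) hs x
  -- the two series
  have hsA : Summable fun j => hh (osc a τ) (FG33.lam m j) * (e j).1 x ^ 2 := by
    refine Summable.of_norm_bounded (hs2.mul_left (C1 ^ 2)) fun j => ?_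
    have h2 := hsup j x
    rw [norm_mul, norm_pow, Real.norm_eq_abs, Real.norm_eq_abs]
    calc |hh (osc a τ) (FG33.lam m j)| * |(e j).1 x| ^ 2
        ≤ |hh (osc a τ) (FG33.lam m j)| * (C1 * (1 + FG33.lam m j) ^ 2) ^ 2 := by gcongr
      _ = _ := by ring
  have hsB : Summable fun j => A * wgt (FG33.lam m j) τ * |(e j).1 x| := by
    refine Summable.of_nonneg_of_le (fun j => ?_) (fun j => ?_) (hs1.mul_left C1)
    · have := wgt_nonneg (FG33.lam m j) τ
      positivity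
    · have h2 := hsup j x
      have h5 := wgt_nonneg (FG33.lam m j) τ
      calc A * wgt (FG33.lam m j) τ * |(e j).1 x|
          ≤ A * wgt (FG33.lam m j) τ * (C1 * (1 + FG33.lam m j) ^ 2) := by gcongr
        _ = _ := by ring
  have hdiff := hexp.sub hsA.hasSum
  have hb : ∀ j, ‖bF hX m (oneT Γ) (e j) (Pa hX m N hρ ha τ x) * (e j).1 x -
      hh (osc a τ) (FG33.lam m j) * (e j).1 x ^ 2‖ ≤ A * wgt (FG33.lam m j) τ * |(e j).1 x| := by
    intro j
    rw [hcoef]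
    have h3 := hEj j
    have h4 : (hh (osc a τ) (FG33.lam m j) * (e j).1 x -
        Er m.1.1 N (FG33.lam m j) (osc a τ) (e j).1 x) * (e j).1 x -
        hh (osc a τ) (FG33.lam m j) * (e j).1 x ^ 2
        = -(Er m.1.1 N (FG33.lam m j) (osc a τ) (e j).1 x * (e j).1 x) := by ring
    rw [h4, norm_neg, norm_mul, Real.norm_eq_abs, Real.norm_eq_abs]
    gcongr
  have h6 := tsum_of_norm_bounded hsB.hasSum hb
  rw [hdiff.tsum_eq, Real.norm_eq_abs] at h6
  exact h6

theorem X6_core (hX : Surface Γ D) (hO : Ori Γ) (m : Mt Γ D) {e : ℕ → TestS Γ}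
    (h : Bas hX m e) (N : ℕ) (C2 : ℝ)
    (hw : ∀ τ : ℝ, 1 ≤ τ → Summable (fun j => wgt (FG33.lam m j) τ) ∧
      ∑' j, wgt (FG33.lam m j) τ ≤ C2 / τ)
    (a : ℝ → ℂ) (ρ M τ : ℝ) (hρ : 0 ≤ ρ) (ha : Amp a ρ M) (hτ : 1 ≤ τ) (A : ℝ) (hA0 : 0 ≤ A)
    (hEr : ∀ x ∈ closure D, ∀ j,
      |Er m.1.1 N (FG33.lam m j) (osc a τ) (e j).1 x| ≤ A * wgt (FG33.lam m j) τ)
    (S : Finset Γ) (hS : near Γ D m.1.1 ρ ⊆ ↑S) :
      |∑' j, hh (osc a τ) (FG33.lam m j) - ∑ γ ∈ S, ∫ x in D, Kx m.1.1 N (osc a τ) x (γ • x) *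
        √(dt (m.1.1 x))| ≤ A * (C2 / τ) := by
  obtain ⟨C1, hC1, hsup⟩ := sup_e hX hO m h
  have hL := Lev_of h
  have hz := zsum3 hL
  have hρ' := BGR_rho m
  obtain ⟨C7, hC7⟩ := hh_decay (osc_smooth ha τ) (osc_supp ha τ) 7
  have hh7 : ∀ j, |hh (osc a τ) (FG33.lam m j)| * (1 + FG33.lam m j) ^ 4
      ≤ C7 * (1 / (FG33.lam m j + 1) ^ 3) := by
    intro j
    have h1 := hC7 (FG33.lam m j)
    have h2 := hL.nn j
    rw [abs_of_nonneg h2] at h1
    rw [mul_one_div, le_div_iff₀ (by positivity)]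
    refine le_trans (le_of_eq ?_) h1
    ring
  have hs1 : Summable fun j => A * wgt (FG33.lam m j) τ * (1 + FG33.lam m j) ^ 2 := by
    refine Summable.of_nonneg_of_le (fun j => ?_) (fun j => ?_)
      (hz.mul_left (A * (8 * (1 + τ))))
    · have := wgt_nonneg (FG33.lam m j) τ
      positivity
    · have := wgt_le2 (hL.nn j) hτ
      calc A * wgt (FG33.lam m j) τ * (1 + FG33.lam m j) ^ 2
          = A * (wgt (FG33.lam m j) τ * (1 + FG33.lam m j) ^ 2) := by ring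
        _ ≤ A * (8 * (1 + τ) * (1 / (FG33.lam m j + 1) ^ 3)) := by gcongr
        _ = _ := by ring
  have hs2 : Summable fun j => |hh (osc a τ) (FG33.lam m j)| * (1 + FG33.lam m j) ^ 4 :=
    Summable.of_nonneg_of_le (fun j => by positivity) hh7 (hz.mul_left C7)
  -- the first series
  set F1 : Pl → ℝ := fun x => ∑' j, hh (osc a τ) (FG33.lam m j) * (e j).1 x ^ 2 with hF1
  have hb1 : ∀ j x, ‖hh (osc a τ) (FG33.lam m j) * (e j).1 x ^ 2‖
      ≤ C1 ^ 2 * (|hh (osc a τ) (FG33.lam m j)| * (1 + FG33.lam m j) ^ 4) := by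
    intro j x
    have h2 := hsup j x
    rw [norm_mul, norm_pow, Real.norm_eq_abs, Real.norm_eq_abs]
    calc |hh (osc a τ) (FG33.lam m j)| * |(e j).1 x| ^ 2
        ≤ |hh (osc a τ) (FG33.lam m j)| * (C1 * (1 + FG33.lam m j) ^ 2) ^ 2 := by gcongr
      _ = _ := by ring
  have hF1c : Continuous F1 :=
    continuous_tsum (fun j => continuous_const.mul ((e j).2.1.continuous.pow 2))
      (hs2.mul_left (C1 ^ 2)) hb1
  -- the second series
  set F2 : Pl → ℝ := fun x => ∑' j, A * wgt (FG33.lam m j) τ * |(e j).1 x| with hF2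
  have hb2 : ∀ j x, ‖A * wgt (FG33.lam m j) τ * |(e j).1 x|‖
      ≤ C1 * (A * wgt (FG33.lam m j) τ * (1 + FG33.lam m j) ^ 2) := by
    intro j x
    have h2 := hsup j x
    have h5 := wgt_nonneg (FG33.lam m j) τ
    rw [Real.norm_of_nonneg (by positivity)]
    calc A * wgt (FG33.lam m j) τ * |(e j).1 x|
        ≤ A * wgt (FG33.lam m j) τ * (C1 * (1 + FG33.lam m j) ^ 2) := by gcongr
      _ = _ := by ring
  have hF2c : Continuous F2 :=
    continuous_tsum (fun j => continuous_const.mul (e j).2.1.continuous.abs)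
      (hs1.mul_left C1) hb2
  -- integrals of the series
  have hI1 : ∫ x in D, F1 x * √(dt (m.1.1 x)) = ∑' j, hh (osc a τ) (FG33.lam m j) := by
    have hint : ∀ j, Integrable (fun x => hh (osc a τ) (FG33.lam m j) * (e j).1 x ^ 2 *
        √(dt (m.1.1 x))) (volume.restrict D) := fun j =>
      Cmp_int hX ((continuous_const.mul ((e j).2.1.continuous.pow 2)).mul hρ')
    have hval : ∀ j, ∫ x in D, hh (osc a τ) (FG33.lam m j) * (e j).1 x ^ 2 * √(dt (m.1.1 x))
        = hh (osc a τ) (FG33.lam m j) := by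
      intro j
      simp_rw [mul_assoc]
      rw [integral_const_mul, int_sq_e h j, mul_one]
    have hnorm : Summable fun j => ∫ x in D, ‖hh (osc a τ) (FG33.lam m j) * (e j).1 x ^ 2 *
        √(dt (m.1.1 x))‖ := by
      have hv : ∀ j, ∫ x in D, ‖hh (osc a τ) (FG33.lam m j) * (e j).1 x ^ 2 * √(dt (m.1.1 x))‖
          = |hh (osc a τ) (FG33.lam m j)| := by
        intro j
        have : ∀ x, ‖hh (osc a τ) (FG33.lam m j) * (e j).1 x ^ 2 * √(dt (m.1.1 x))‖
            = |hh (osc a τ) (FG33.lam m j)| * ((e j).1 x ^ 2 * √(dt (m.1.1 x))) := by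
          intro x
          rw [mul_assoc, norm_mul, Real.norm_eq_abs, Real.norm_of_nonneg (by positivity)]
        simp_rw [this]
        rw [integral_const_mul, int_sq_e h j, mul_one]
      simp_rw [hv]
      refine Summable.of_nonneg_of_le (fun j => abs_nonneg _) (fun j => ?_) hs2
      have h1 : 1 ≤ (1 + FG33.lam m j) ^ 4 := one_le_pow₀ (by have := hL.nn j; linarith)
      have h2 := abs_nonneg (hh (osc a τ) (FG33.lam m j))
      nlinarith
    have h1 := (hasSum_integral_of_summable_integral_norm hint hnorm).tsum_eq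
    simp_rw [hval] at h1
    rw [h1]
    refine integral_congr_ae (Eventually.of_forall fun x => ?_)
    rw [hF1]
    dsimp only
    rw [tsum_mul_right]
  have hI2 : ∫ x in D, F2 x * √(dt (m.1.1 x)) ≤ A * (C2 / τ) := by
    have hint : ∀ j, Integrable (fun x => A * wgt (FG33.lam m j) τ * |(e j).1 x| *
        √(dt (m.1.1 x))) (volume.restrict D) := fun j =>
      Cmp_int hX ((continuous_const.mul (e j).2.1.continuous.abs).mul hρ')
    have hval : ∀ j, ∫ x in D, A * wgt (FG33.lam m j) τ * |(e j).1 x| * √(dt (m.1.1 x))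
        ≤ A * wgt (FG33.lam m j) τ := by
      intro j
      simp_rw [mul_assoc]
      rw [integral_const_mul, integral_const_mul]
      have h1 := int_abs_e h j
      have h2 := wgt_nonneg (FG33.lam m j) τ
      have h3 : wgt (FG33.lam m j) τ * ∫ x in D, |(e j).1 x| * √(dt (m.1.1 x))
          ≤ wgt (FG33.lam m j) τ * 1 := by gcongr
      rw [mul_one] at h3
      gcongr
    have hvn : ∀ j, 0 ≤ ∫ x in D, A * wgt (FG33.lam m j) τ * |(e j).1 x| * √(dt (m.1.1 x)) := by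
      intro j
      refine integral_nonneg fun x => ?_
      have h2 := wgt_nonneg (FG33.lam m j) τ
      show 0 ≤ A * wgt (FG33.lam m j) τ * |(e j).1 x| * √(dt (m.1.1 x))
      positivity
    have hwA : Summable fun j => A * wgt (FG33.lam m j) τ := (hw τ hτ).1.mul_left A
    have hnorm : Summable fun j => ∫ x in D, ‖A * wgt (FG33.lam m j) τ * |(e j).1 x| *
        √(dt (m.1.1 x))‖ := by
      have hv : ∀ j x, ‖A * wgt (FG33.lam m j) τ * |(e j).1 x| * √(dt (m.1.1 x))‖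
          = A * wgt (FG33.lam m j) τ * |(e j).1 x| * √(dt (m.1.1 x)) := by
        intro j x
        have h2 := wgt_nonneg (FG33.lam m j) τ
        exact Real.norm_of_nonneg (by positivity)
      simp_rw [hv]
      exact Summable.of_nonneg_of_le hvn hval hwA
    have h1 := (hasSum_integral_of_summable_integral_norm hint hnorm).tsum_eq
    have h2 : ∫ x in D, F2 x * √(dt (m.1.1 x))
        = ∫ x in D, ∑' j, A * wgt (FG33.lam m j) τ * |(e j).1 x| * √(dt (m.1.1 x)) := by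
      refine integral_congr_ae (Eventually.of_forall fun x => ?_)
      rw [hF2]
      dsimp only
      rw [tsum_mul_right]
    rw [h2, ← h1]
    have hsv := Summable.of_nonneg_of_le hvn hval hwA
    refine (hsv.tsum_le_tsum hval hwA).trans ?_
    rw [tsum_mul_left]
    exact mul_le_mul_of_nonneg_left (hw τ hτ).2 hA0
  -- the finite sum
  set F3 : Pl → ℝ := fun x => ∑ γ ∈ S, Kx m.1.1 N (osc a τ) x (γ • x) with hF3
  have hKc : ∀ γ : Γ, Continuous fun x : Pl => Kx m.1.1 N (osc a τ) x (γ • x) * √(dt (m.1.1 x)) :=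
    fun γ => (Kd_cont hX hO (hm_of_Mt m) N (osc_smooth ha τ) (osc_even ha τ) (osc_supp ha τ)
      γ).mul hρ'
  have hF3c : Continuous F3 := continuous_finsetSum _ fun γ _ =>
    Kd_cont hX hO (hm_of_Mt m) N (osc_smooth ha τ) (osc_even ha τ) (osc_supp ha τ) γ
  have hI3 : ∑ γ ∈ S, ∫ x in D, Kx m.1.1 N (osc a τ) x (γ • x) * √(dt (m.1.1 x))
      = ∫ x in D, F3 x * √(dt (m.1.1 x)) := by
    rw [← integral_finsetSum _ fun γ _ => Cmp_int hX (hKc γ)]
    refine integral_congr_ae (Eventually.of_forall fun x => ?_)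
    rw [hF3]
    dsimp only
    rw [Finset.sum_mul]
  have c1 : Continuous fun x => F1 x * √(dt (m.1.1 x)) := hF1c.mul hρ'
  have c2 : Continuous fun x => F2 x * √(dt (m.1.1 x)) := hF2c.mul hρ'
  have c3 : Continuous fun x => F3 x * √(dt (m.1.1 x)) := hF3c.mul hρ'
  rw [← hI1, hI3, ← integral_sub (Cmp_int hX c1) (Cmp_int hX c3)]
  have hfin : |∫ x in D, (F1 x * √(dt (m.1.1 x)) - F3 x * √(dt (m.1.1 x)))|
      ≤ ∫ x in D, F2 x * √(dt (m.1.1 x)) := by
    rw [← Real.norm_eq_abs]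
    refine norm_integral_le_of_norm_le (Cmp_int hX c2) ?_
    filter_upwards [ae_restrict_mem hX.meas] with x hx
    have h1 := X6_diag hX hO m h N a ρ M τ hρ ha hτ A hA0 x (hEr x (subset_closure hx))
    rw [diag_eq hX m N hρ ha τ hS (subset_closure hx)] at h1
    have h2 : F1 x * √(dt (m.1.1 x)) - F3 x * √(dt (m.1.1 x))
        = -((F3 x - F1 x) * √(dt (m.1.1 x))) := by ring
    rw [h2, norm_neg, norm_mul, Real.norm_eq_abs, Real.norm_of_nonneg (Real.sqrt_nonneg _)]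
    exact mul_le_mul_of_nonneg_right h1 (Real.sqrt_nonneg _)
  exact hfin.trans hI2

theorem trace1N (hX : Surface Γ D) (hO : Ori Γ) (m : Mt Γ D) (hg : Growth D m.1.1) :
    ∃ C : ℝ, 0 ≤ C ∧ ∀ N : ℕ, 6 ≤ N → ∃ B : ℝ, 0 ≤ B ∧ ∀ (a : ℝ → ℂ) (ρ M τ : ℝ), 0 ≤ ρ →
      AmpN N a ρ M → 1 ≤ τ → ∀ S : Finset Γ, near Γ D m.1.1 ρ ⊆ ↑S →
      |∑' j, hh (osc a τ) (FG33.lam m j) - ∑ γ ∈ S, ∫ x in D, Kx m.1.1 N (osc a τ) x (γ • x) *
        √(dt (m.1.1 x))| ≤ B * Real.exp (C * ρ) * M / τ ^ (N - 5) := by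
  obtain ⟨e, h⟩ := exists_Bas hX m
  obtain ⟨C, hC0, hC⟩ := X6_Er hX hO m hg h
  obtain ⟨C2, hC2, hw⟩ := wsum (Lev_of h)
  refine ⟨C, hC0, fun N hN => ?_⟩
  obtain ⟨B, hB0, hB⟩ := hC N hN
  refine ⟨B * C2, by positivity, fun a ρ M τ hρ haN hτ S hS => ?_⟩
  have ha := haN.amp
  have hM := amp_M_nonneg ha
  have hA0 : 0 ≤ B * Real.exp (C * ρ) * M / τ ^ (N - 5) := by positivity
  have h1 := X6_core hX hO m h N C2 hw a ρ M τ hρ ha hτ _ hA0
    (fun x hx j => hB j a ρ M τ hρ haN hτ x hx) S hS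
  refine h1.trans ?_
  have h2 : C2 / τ ≤ C2 := div_le_self hC2 hτ
  calc B * Real.exp (C * ρ) * M / τ ^ (N - 5) * (C2 / τ)
      ≤ B * Real.exp (C * ρ) * M / τ ^ (N - 5) * C2 := mul_le_mul_of_nonneg_left h2 hA0
    _ = B * C2 * Real.exp (C * ρ) * M / τ ^ (N - 5) := by ring

end BE73
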